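import Pool.Agent.Run7.h2.OB.PUDefs

set_option autoImplicit false

/-!
# Unitary places and spin parts: the definitions

See `Pool/Agent/Results/MP_f11a48_ag/UnitaryAndSpinDomains.lean`.
-/

open Module Matrix Pool.Agent.Y102 Pool.Agent.W516.DR Pool.Agent.H204R3.GP Run7.h2.OB.PU

noncomputable section

namespace Run7.h2.UOD

variable {g : ℕ} (A : AbVar g)

/-- The endomorphisms of the rational homology. -/
abbrev EndQ : Type := Module.End ℚ A.H1

/-- The product of `X` and `Y`. -/
def mul (X Y : EndQ A) : EndQ A := X * Y

/-- The elements `X` and `Y` commute. -/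
def Comm (X Y : EndQ A) : Prop := mul A X Y = mul A Y X

/-- The commutator of `X` and `Y`. -/
def bracket (X Y : EndQ A) : EndQ A := mul A X Y - mul A Y X

/-- `Z` is skew-symmetric for the polarization. -/
def IsSkewFor (Z : EndQ A) : Prop := ∀ u v, A.om (Z u) v + A.om u (Z v) = 0

/-! ### Unitary places -/

/-- `z` is an endomorphism in the centre of the algebra of the endomorphisms, it is skew-symmetric for the
polarization, and the elements of the centre are polynomials in `z` on the image of `z`. -/
structure Part (z : EndQ A) : Prop where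
  central : IsCentral A z
  skew : IsSkewFor A z
  generates : ∀ P, IsCentral A P → ∃ q, IsPoly A z P q

/-- `X` is injective on the image of `z`. -/
def InjectiveOn (z X : EndQ A) : Prop := ∀ v, X (z v) = 0 → z v = 0

/-- `X` is zero on the image of `z`. -/
def ZeroOn (z X : EndQ A) : Prop := ∀ v, X (z v) = 0

/-- The value of the polynomial `q` at `z`. -/
def poly (z : EndQ A) (q : Polynomial ℚ) : EndQ A := Polynomial.aeval z q

/-- `ℚ[z]` is a field on the image of `z`. -/
def IsField (z : EndQ A) : Prop := ∀ q, InjectiveOn A z (poly A z q) ∨ ZeroOn A z (poly A z q)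

/-- The commutant of the endomorphisms is a division algebra on the image of `z`. -/
def IsDivisionAlgebra (z : EndQ A) : Prop := ∀ X, Commutes A X → InjectiveOn A z X ∨ ZeroOn A z X

/-- The multiplicity of the eigenvalue `i a` of `z` on the tangent space. -/
def multiplicity (z : EndQ A) (a : ℝ) : ℕ := Set.finrank ℂ {x | Eigen A z a x}

/-- `i a` is an eigenvalue of `z` on the tangent space. -/
def Occurs (z : EndQ A) (a : ℝ) : Prop := ∃ x, x ≠ 0 ∧ Eigen A z a x

/-- `a` is different from zero, and `i a` and `- i a` are eigenvalues of `z` on the tangent space. -/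
def IndefiniteAt (z : EndQ A) (a : ℝ) : Prop := a ≠ 0 ∧ Occurs A z a ∧ Occurs A z (-a)

/-- The type of the place: a ball place; or `ℚ[z]` is a field and some place of `z` is a ball place; or
the commutant of the endomorphisms is a division algebra of a prime degree. -/
def GoodType (z : EndQ A) (a : ℝ) : Prop :=
  BallPlace A z a ∨ (IsField A z ∧ ∃ b, IndefiniteAt A z b ∧ BallPlace A z b) ∨
    ∃ p : ℕ, p.Prime ∧ IsDivisionAlgebra A z ∧ HasDegree A z p

/-- **A unitary place**: `z` is central and skew-symmetric and generates the centre on its image, the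
signature at `a` is indefinite, with one of the types above. -/
structure Place (z : EndQ A) (a : ℝ) : Prop where
  part : Part A z
  indefinite : IndefiniteAt A z a
  type : GoodType A z a

/-- **The signatures are different.** If `(r, s)` and `(r', s')` are the multiplicities of `i a`, `- i a` (for
`z`) and of `i b`, `- i b` (for `z'`) on the tangent space, then `r : s ≠ r' : s'` and
`r : s ≠ s' : r'`. -/
def DifferentSignatures (z z' : EndQ A) (a b : ℝ) : Prop :=
  multiplicity A z a * multiplicity A z' (-b) ≠ multiplicity A z (-a) * multiplicity A z' b ∧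
    multiplicity A z a * multiplicity A z' b ≠ multiplicity A z (-a) * multiplicity A z' (-b)

/-- The places are separated from each other. -/
def Separated (z z' : EndQ A) (a b : ℝ) : Prop := SeparatesTwo A z z' a b ∧ SeparatesTwo A z z' (-a) b

/-- **Several unitary places**, of one or of several central endomorphisms. Different places have
different signatures, or they are separated. -/
structure Places {k : ℕ} (z : Fin k → EndQ A) (a : Fin k → ℝ) : Prop where
  place : ∀ i, Place A (z i) (a i)
  apart : ∀ i j, i ≠ j →
    DifferentSignatures A (z i) (z j) (a i) (a j) ∨ Separated A (z i) (z j) (a i) (a j)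

/-! ### Spin parts -/

/-- The algebra of the endomorphisms of `H_1(A, ℂ)`, as matrices for the basis of the lattice. -/
abbrev EndC (_ : AbVar g) : Type := Matrix (Fin (2 * g)) (Fin (2 * g)) ℂ

/-- The complex Lie algebra `𝔤 ⊗ ℂ`, acting on `H_1(A, ℂ)`. -/
def lieC : Submodule ℂ (EndC A) := Submodule.span ℂ {Y | ∃ X, InLie A X ∧ Y = toC A X}

/-- **A sum of spin parts** `W = W_1 ⊕ ... ⊕ W_l` of `H_1(A, ℂ)`: `P σ` is the inclusion of `W_σ`, a
space of dimension `d σ`, and `Q σ` is the projection. The `E σ i` are `r σ` anticommuting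
endomorphisms of `W_σ` with square `1`, so that the products of two of them span the orthogonal Lie
algebra `so(r σ)`, acting on a sum of spin representations. The Lie algebra `𝔤` acts on `W_σ` by
elements of `so(r σ)` and scalars, and on two parts with the same `r σ` by the same scalar. -/
structure SpinParts {l : ℕ} {r d : Fin l → ℕ}
    (E : ∀ σ, Fin (r σ) → Matrix (Fin (d σ)) (Fin (d σ)) ℂ)
    (P : ∀ σ, Matrix (Fin (2 * g)) (Fin (d σ)) ℂ)
    (Q : ∀ σ, Matrix (Fin (d σ)) (Fin (2 * g)) ℂ) : Prop where
  /-- the parts are not zero -/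
  pos : ∀ σ, 0 < d σ
  /-- the ranks -/
  rank : ∀ σ, r σ = 3 ∨ 6 ≤ r σ
  /-- the rank `8` occurs at most once -/
  eight : ∀ σ τ, r σ = 8 → r τ = 8 → σ = τ
  /-- the relations of the Clifford algebras -/
  square : ∀ σ i, E σ i * E σ i = 1
  anti : ∀ σ i j, i ≠ j → E σ i * E σ j = -(E σ j * E σ i)
  /-- the sum of the parts is direct -/
  proj : ∀ σ, Q σ * P σ = 1
  orth : ∀ σ τ, σ ≠ τ → Q σ * P τ = 0
  /-- the parts and their complement are stable under `𝔤` -/
  stable : ∀ X, InLie A X → ∀ σ, P σ * Q σ * toC A X = toC A X * (P σ * Q σ)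
  /-- `𝔤` acts through the orthogonal Lie algebras and scalars, which depend only on the rank -/
  acts : ∀ X, InLie A X → ∃ t : Fin l → ℂ, (∀ σ τ, r σ = r τ → t σ = t τ) ∧
    ∀ σ, Q σ * toC A X * P σ + t σ • (1 : Matrix (Fin (d σ)) (Fin (d σ)) ℂ) ∈
      Submodule.span ℂ {Y | ∃ i j, i ≠ j ∧ Y = E σ i * E σ j}
  /-- the associative algebra generated by `𝔤 ⊗ ℂ` contains elements which act on `W_σ` like the
  products, and by zero on the other parts of the same rank -/
  generates : ∀ σ i j, i ≠ j → ∃ Y ∈ Algebra.adjoin ℂ (lieC A : Set (EndC A)),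
    Q σ * Y * P σ = E σ i * E σ j ∧ ∀ τ, τ ≠ σ → r τ = r σ → Q τ * Y * P τ = 0

/-! ### The dimension of the Lie algebra at a place -/

/-- `X` is an element of the derived algebra `[𝔤, 𝔤]`. -/
def IsDerived (X : EndQ A) : Prop :=
  X ∈ Submodule.span ℚ {Z | ∃ X, InLie A X ∧ ∃ Y, InLie A Y ∧ Z = bracket A X Y}

/-- `x` is a vector in the sum of the eigenspaces of `z` for `i a` and `- i a` in
`H_1(A, ℝ) = ℂ ^ g`. -/
def AtPlace (z : EndQ A) (a : ℝ) (x : Fin g → ℂ) : Prop :=
  A.ext z (A.ext z x) + (a ^ 2) • x = 0

/-- The coordinates of a vector of `H_1(A, ℝ) = ℂ ^ g` for the basis of the lattice. -/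
def coordinates (x : Fin g → ℂ) : Fin (2 * g) → ℂ := fun j => ((A.lam.repr x j : ℝ) : ℂ)

/-- The functions on the sum of the eigenspaces with values in `H_1(A, ℂ)`. -/
abbrev Functions (z : EndQ A) (a : ℝ) : Type := {x // AtPlace A z a x} → Fin (2 * g) → ℂ

/-- The action of an endomorphism on the vectors in the sum of the eigenspaces. -/
def actionAt (z : EndQ A) (a : ℝ) (X : EndQ A) : Functions A z a :=
  fun x => toC A X *ᵥ coordinates A x.1

/-- The dimension of the complex Lie algebra `[𝔤, 𝔤] ⊗ ℂ` of operators on the sum of the eigenspaces of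
`z` for `± i a`. At a place of signature `(r, s)` it is `N ² - 1`, `N = r + s`. -/
def dimensionAt (z : EndQ A) (a : ℝ) : ℕ :=
  Set.finrank ℂ {f : Functions A z a | ∃ X, IsDerived A X ∧ f = actionAt A z a X}

/-! ### The centre -/

/-- There is no factor of type IV: the centre of the algebra of the endomorphisms contains no nonzero
element which is skew-symmetric for the polarization. -/
def NoFactorOfTypeIV : Prop := ∀ P, IsCentral A P → IsSkewFor A P → P = 0

/-- `X` is an element of the centre of `𝔤`. -/
def IsInCentre (X : EndQ A) : Prop := InLie A X ∧ ∀ Y, InLie A Y → Comm A Y X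

/-- The endomorphisms which commute with `X` and with the derived algebra of `𝔤` commute with the
centre of `𝔤`. -/
def GeneratesCentre (X : EndQ A) : Prop :=
  ∀ T, (∀ Y, InLie A Y → ∀ Z, InLie A Z → Comm A T (bracket A Y Z)) →
    Comm A T X → ∀ Z, IsInCentre A Z → Comm A T Z

/-- The centre of `𝔤` is rigid: the relations between the eigenvalues of a generating element of the
centre hold for all elements of the centre. -/
def HasRigidCentre : Prop :=
  ∀ X, IsInCentre A X → GeneratesCentre A X → ∀ Y, IsInCentre A Y → RelationsOf A X Y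

variable {A}

/-- The centre of the Lie algebra acts trivially on `M`: an element of `𝔤` which acts on `M` like a
central element acts trivially. -/
def CentreIsTrivialOn {s n : ℕ} {r : Fin s → ℕ} (B : Fin n → Tensors A r) : Prop :=
  ∀ X, InLie A X → (∀ Y, InLie A Y → IsLieMatrix B (bracket A X Y) 0) → IsLieMatrix B X 0

/-! ### The domain -/

/-- `p` is the action of an element of the derived algebra `[𝔤, 𝔤]`, on `H_1(A, ℂ)` and on the
motive `M` with the basis `B`. -/
def IsPair {s n : ℕ} {r : Fin s → ℕ} (B : Fin n → Tensors A r)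
    (p : EndC A × Matrix (Fin n) (Fin n) ℂ) : Prop :=
  ∃ X, IsDerived A X ∧ ∃ M : Matrix (Fin n) (Fin n) ℚ, IsLieMatrix B X M ∧
    p = (toC A X, M.map fun q => (q : ℂ))

/-- The part of the Hodge group which acts trivially on the image of the projector `E`, and on the
eigenspaces of the `z j` for `± i a j`, acts trivially on the Mumford-Tate domain of `M`: if an element
of `[𝔤, 𝔤] ⊗ ℂ`, which acts on `H_1(A, ℂ)` by `p.1` and on `M` by `p.2`, acts trivially on these
spaces, then `p.2` commutes with the complex structure `N` of `M`. -/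
def IsDomain {s n k : ℕ} {r : Fin s → ℕ} (z : Fin k → EndQ A) (a : Fin k → ℝ)
    (E : EndC A) (B : Fin n → Tensors A r) (N : Matrix (Fin n) (Fin n) ℝ) : Prop :=
  ∀ p ∈ Submodule.span ℂ {p | IsPair B p}, E * p.1 = 0 →
    (∀ j x, AtPlace A (z j) (a j) x → p.1 *ᵥ coordinates A x = 0) →
      p.2 * N.map (fun x => (x : ℂ)) = N.map (fun x => (x : ℂ)) * p.2

end Run7.h2.UOD
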