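import Pool.Agent.Run7.h2.UO.U6
import Pool.Agent.Run7.h2.UO.Defs

set_option autoImplicit false

/-!
# Unitary places and spin parts: the proof
-/

open Module Matrix Pool.Agent Pool.Agent.Y102 Pool.Agent.W516.DR Pool.Agent.H204R3.GP Run7.h2.OB.PU

noncomputable section

namespace Run7.h2.UOD

variable {g : ℕ} {A : AbVar g}

theorem Place.toUnitary {z : EndQ A} {a : ℝ} (h : Place A z a) : UnitaryPlace A z a where
  part := ⟨h.part.central.1, fun P hP => h.part.central.2 P hP, h.part.skew,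
    fun P hP hc => h.part.generates P ⟨hP, hc⟩⟩
  indefinite := h.indefinite
  type := by
    rcases h.type with h1 | ⟨h1, b, h2, h3⟩ | ⟨p, hp, h1, h2⟩
    · exact Or.inl h1
    · exact Or.inr (Or.inl ⟨h1, b, h2, h3⟩)
    · exact Or.inr (Or.inr ⟨p, hp, h1, h2⟩)

theorem Places.toUnitary {k : ℕ} {z : Fin k → EndQ A} {a : Fin k → ℝ} (h : Places A z a) :
    UnitaryPlaces A z a where
  place := fun i => (h.place i).toUnitary
  apart := h.apart

theorem dim_eq (z : EndQ A) (a : ℝ) :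
    dimensionAt A z a = finrank ℂ ((_root_.Pool.Agent.Run7.h2.OR.spM (Y102.der A.NA)).map
      (_root_.Pool.Agent.Run7.h2.UO.rho A (N208.BT.V0 A z a))) := by
  have h1 : (_root_.Pool.Agent.Run7.h2.OR.spM (Y102.der A.NA)).map
      (_root_.Pool.Agent.Run7.h2.UO.rho A (N208.BT.V0 A z a)) =
      Submodule.span ℂ {f : N208.BT.V0 A z a → Fin (2 * g) → ℂ | ∃ X, IsDerived A X ∧
        f = fun x => toC A X *ᵥ coordinates A x.1} := by
    unfold _root_.Pool.Agent.Run7.h2.OR.spM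
    rw [Submodule.map_span]
    congr 1
    ext f
    constructor
    · rintro ⟨_, ⟨X, hX, rfl⟩, rfl⟩
      refine ⟨X, (Submodule.span_mono ?_) hX, rfl⟩
      rintro _ ⟨X, hX, Y, hY, rfl⟩
      exact ⟨X, hX, Y, hY, rfl⟩
    · rintro ⟨X, hX, rfl⟩
      refine ⟨toC A X, ⟨X, (Submodule.span_mono ?_) hX, rfl⟩, rfl⟩
      rintro _ ⟨X, hX, Y, hY, rfl⟩
      exact ⟨X, hX, Y, hY, rfl⟩
  rw [h1]
  rfl

theorem so_dim {n d : ℕ} {E : Fin n → Matrix (Fin d) (Fin d) ℂ} (hn : 3 ≤ n) (hd : 0 < d)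
    (hE : Y102.SP.CE (N113.BT.enM E)) :
    2 * finrank ℂ (Y102.SP.soE (N113.BT.enM E)) = n * (n - 1) := by
  have : Nonempty (Fin d) := ⟨⟨0, hd⟩⟩
  have h1 : finrank ℂ (_root_.Pool.Agent.Run7.h2.OR.Sk n) = finrank ℂ (Y102.SP.soE (N113.BT.enM E)) :=
    (_root_.Pool.Agent.Run7.h2.OR.spE hE).finrank_eq
  have h2 := _root_.Pool.Agent.Run7.h2.OR.dim_Sk n
  rw [h1] at h2
  obtain ⟨m, rfl⟩ : ∃ m, n = m + 1 := ⟨n - 1, by omega⟩
  have h3 : ((2 * finrank ℂ (Y102.SP.soE (N113.BT.enM E)) : ℕ) : ℂ) =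
      (((m + 1) * (m + 1 - 1) : ℕ) : ℂ) := by
    rw [Nat.add_sub_cancel]
    push_cast at h2 ⊢
    rw [h2]
    ring
  exact_mod_cast h3

theorem main {g s n k l : ℕ} (A : AbVar g) (z : Fin k → EndQ A) (a : Fin k → ℝ)
    (hA : Places A z a) {rk d : Fin l → ℕ}
    (E : ∀ σ, Fin (rk σ) → Matrix (Fin (d σ)) (Fin (d σ)) ℂ)
    (PW : ∀ σ, Matrix (Fin (2 * g)) (Fin (d σ)) ℂ) (QW : ∀ σ, Matrix (Fin (d σ)) (Fin (2 * g)) ℂ)
    (hS : SpinParts A E PW QW)
    (hdim : ∀ i σ, 2 * dimensionAt A (z i) (a i) ≠ rk σ * (rk σ - 1))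
    (r : Fin s → ℕ) (w : Fin s → ℤ)
    (B : Fin n → Tensors A r) (P : Matrix (Fin n) (Fin n) ℂ) (hM : IsMotive w B P)
    (N : Matrix (Fin n) (Fin n) ℝ) (hN : IsComplexStructure B N)
    (hD : IsDomain z a (∑ σ, PW σ * QW σ) B N)
    (G : Subgroup (GL (Fin n) ℂ)) (hG : IsAlgebraicSubgroup G) (T : Matrix (Fin n) (Fin n) ℂ)
    (hT : ∀ i j, IsAlgebraic ℚ (T i j)) (hP : P ∈ torsor G T) :
    (∀ Z ∈ derived (hodgeLie N), ∀ t : ℂ, ∃ x ∈ G,
      (x : Matrix (Fin n) (Fin n) ℂ) = NormedSpace.exp (t • Z.map fun q => (q : ℂ))) ∧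
    (NoFactorOfTypeIV A ∨ CentreIsTrivialOn B ∨ HasRigidCentre A → mumfordTate w B ≤ G) := by
  have hparts : Pool.Agent.Run7.h2.OR.Parts A E PW QW :=
    ⟨hS.square, hS.anti, hS.pos, hS.rank, hS.eight, hS.proj, hS.orth, hS.stable, hS.acts,
      hS.generates⟩
  have hrig : Pool.Agent.Run7.h2.UO.Jt A (matE (2 * g) (∑ σ, PW σ * QW σ))
      (_root_.Run7.h2.OB.UI A z a) := by
    refine Pool.Agent.Run7.h2.UO.jt (UnitaryPlaces.toHGI A hA.toUnitary) hparts fun i σ h0 => hdim i σ ?_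
    rw [dim_eq, h0]
    exact so_dim (hparts.r3 σ) (hS.pos σ) (hparts.CE' σ)
  obtain ⟨hM', Wt, hW⟩ : N208.AM.Mot w B P ∧ ∃ Wt, N208.AM.WRel w B Wt := by
    have hwt : ∃ M, N208.AM.WRel w B M := by
      obtain ⟨M, h⟩ := hM.weight
      refine ⟨M, fun a i => MultilinearMap.ext fun v => ?_⟩
      rw [_root_.smul_apply, _root_.sum_apply, smul_eq_mul, h a i v]
      rfl
    refine ⟨⟨hM.basis, fun X hX => ?_, hwt, hM.det, hM.deRham⟩, hwt⟩
    obtain ⟨M, h⟩ := hM.lie X hX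
    refine ⟨M, fun a i => MultilinearMap.ext fun v => ?_⟩
    rw [N208.AM.dact_apply, _root_.sum_apply, h a i v]
    rfl
  have hrelL : ∀ X M, N208.AM.Rel B X M ↔ IsLieMatrix B X M := by
    intro X M
    constructor
    · intro h a i v
      have h1 := congrArg (fun φ : MultilinearMap ℚ (fun _ : Fin (r i) => A.H1) ℚ => φ v) (h a i)
      simp only [N208.AM.dact_apply, _root_.sum_apply, _root_.smul_apply, smul_eq_mul] at h1
      exact h1
    · intro h a i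
      refine MultilinearMap.ext fun v => ?_
      rw [N208.AM.dact_apply, _root_.sum_apply, h a i v]
      rfl
  have hb : ∀ j : Fin (2 * g), A.bas j = Pi.single j 1 := fun j => by
    unfold AbVar.bas
    rw [Pi.basisFun_apply]
  have hrel : ∀ z R, N208.AM.HRel w B z R → IsHodgeMatrix w B z R := by
    intro z R h a i j
    have h1 := h a i j
    simp only [hb] at h1
    exact h1
  have hA' : NoFactorOfTypeIV A → N208.AM.NT4 A := fun hA P hP hc hs =>
    hA P ⟨A.mem_EA.1 hP, fun Q hQ => hc Q (A.mem_EA.2 hQ)⟩ hs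
  have hNC : CentreIsTrivialOn B → N208.AM.NoCentre B := fun hc X hX h =>
    (hrelL X 0).2 (hc X hX fun Y hY => (hrelL _ 0).1 (h Y hY))
  -- the complex structure
  have hNR : N208.AM.RelR B AbVar.JJ N := by
    intro a i
    refine Basis.ext_multilinear (fun _ => A.lam) fun j => ?_
    have h1 := hN a i j
    rw [N208.AM.dact_apply, _root_.sum_apply]
    have h2 : (fun p => A.lam (j p)) = fun p => A.per (Pi.single (j p) 1) := by
      funext p
      rw [← hb, A.per_bas]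
    have h3 : ∀ b, (N b a • A.Phi (B b i)) (fun p => A.lam (j p)) =
        N b a * (B b i (fun p => Pi.single (j p) 1) : ℝ) := fun b => by
      rw [_root_.smul_apply, smul_eq_mul, h2, A.Phi_per]
    rw [Finset.sum_congr rfl fun b _ => h3 b, ← h1]
    refine Finset.sum_congr rfl fun k _ => ?_
    rw [AbVar.JJ_apply, ← A.lam.sum_repr (Complex.I • A.lam (j k)), MultilinearMap.map_update_sum]
    simp only [A.lam.sum_repr]
    refine Finset.sum_congr rfl fun l _ => ?_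
    rw [MultilinearMap.map_update_smul, smul_eq_mul]
    congr 1
    have h4 : A.lam l = A.per (Pi.single l 1) := by rw [← hb, A.per_bas]
    rw [h2, h4, N208.AM.update_per, A.Phi_per]
  have hα : ∀ p ∈ N113.BT.pC B (Pool.Agent.Y102.der A.NA),
      matE (2 * g) (∑ σ, PW σ * QW σ) * p.1 = 0 →
      (∀ u ∈ _root_.Run7.h2.OB.UI A z a, Pool.Agent.Run7.h2.UO.Kil A p.1 u) →
      p.2 * N208.AM.cxm N = N208.AM.cxm N * p.2 := by
    refine Pool.Agent.Run7.h2.UO.alpha_of3 fun p hp h0 hk => ?_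
    refine hD p ?_ h0 fun j x hx => hk x ⟨j, hx⟩
    refine (Submodule.span_mono ?_) hp
    rintro _ ⟨X, hX, M, hM, rfl⟩
    refine ⟨X, ?_, M, (hrelL _ _).1 hM, rfl⟩
    refine (Submodule.span_mono ?_) hX
    rintro _ ⟨X, hX, Y, hY, rfl⟩
    exact ⟨X, hX, Y, hY, rfl⟩
  -- the group
  have hdet : T.det ≠ 0 := by
    obtain ⟨x, -, hxT⟩ := hP
    intro h0
    have h1 : (x : Matrix (Fin n) (Fin n) ℂ).det = 0 := by
      rw [hxT, Matrix.det_mul, h0, mul_zero]
    exact (Matrix.GeneralLinearGroup.det x).ne_zero h1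
  obtain ⟨T', h1, h2⟩ := Pool.Agent.R917.alg_inv hT hdet
  obtain ⟨x, hx, hxT⟩ := hP
  have hH : N208.AM.PtM P _ := ⟨Pool.Agent.R917.algGrp_of hG, T, T', h1, h2, x, hx, hxT⟩
  refine ⟨fun Z hZ t => ?_, fun hA => ?_⟩
  · obtain ⟨L, hL1, hL2, hL3⟩ := Pool.Agent.Run7.h2.UO.main_der3 hM' hW hH hrig hNR hα
    have h3 : hodgeLie N ≤ L := sInf_le ⟨hL1, hL2⟩
    have h4 : derived (hodgeLie N) ≤
        N208.AM.LQ {M | ∃ x ∈ G, (x : Matrix (Fin n) (Fin n) ℂ) = M} := by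
      unfold derived
      rw [Submodule.span_le]
      rintro _ ⟨x, hx, y, hy, rfl⟩
      exact hL3 x (h3 hx) y (h3 hy)
    exact Pool.Agent.R917.exp_mem hH.grp fun d => (h4 hZ d).smul t
  · have key : N208.AM.NoCentre B ∨ N208.CT.Rigid A := by
      rcases hA with h | h | h
      · exact Or.inl (N208.AM.noCentre_of_NT4 hM' (hA' h))
      · exact Or.inl (hNC h)
      · exact Or.inr (RigidCentre.toRigid A h)
    refine sInf_le ⟨hG, fun z hz => ?_⟩
    rcases key with hc | hc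
    · obtain ⟨⟨x, hx, hx'⟩, h4⟩ := Pool.Agent.Run7.h2.UO.main_B3 hM' hW hH hc hrig hNR hα hz
      refine ⟨x, hx, ?_⟩
      rw [hx']
      exact hrel _ _ h4
    · obtain ⟨⟨x, hx, hx'⟩, h4⟩ := Pool.Agent.Run7.h2.UO.main_CT3 hM' hW hH hc hrig hNR hα hz
      refine ⟨x, hx, ?_⟩
      rw [hx']
      exact hrel _ _ h4

end Run7.h2.UOD
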