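import Pool.Agent.Run7.h2.OB.SODefs

set_option autoImplicit false

/-!
# 1-motives, unitary places and spin parts: the definitions

See `Pool/Agent/Results/MP_12eca1_ag/OneMotivesSpinParts.lean`.
-/

open Module Matrix Pool.Agent.Y102 Pool.Agent.N208.OneM

noncomputable section

namespace Run7.h2.UOD.O

variable {g g' k : ℕ} (A : AbVar g) (C : AbVar g')

/-! ### Spin parts -/

/-- The algebra of the endomorphisms of `H_1(A, ℂ)`, as matrices for the basis of the lattice. -/
abbrev EndC (_ : AbVar g) : Type := Matrix (Fin (2 * g)) (Fin (2 * g)) ℂ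

/-- The complex Lie algebra `𝔤 ⊗ ℂ`, acting on `H_1(A, ℂ)`. -/
def lieC : Submodule ℂ (EndC A) := Submodule.span ℂ {Y | ∃ X, InLie A X ∧ Y = toC A X}

/-- **A sum of spin parts** `W = W_1 ⊕ ... ⊕ W_l` of `H_1(A, ℂ)`: `P σ` is the inclusion of `W_σ`, a
space of dimension `d σ`, and `Q σ` is the projection. The `E σ i` are `r σ` anticommuting
endomorphisms of `W_σ` with square `1`, so that the products of two of them span the orthogonal Lie
algebra `so(r σ)`, acting on a sum of spin representations. The Lie algebra `𝔤` acts on `W_σ` by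
elements of `so(r σ)` and scalars, and on two parts with the same `r σ` by the same scalar. -/
structure SpinParts {l : ℕ} {r d : Fin l → ℕ}
    (E : ∀ σ, Fin (r σ) → Matrix (Fin (d σ)) (Fin (d σ)) ℂ)
    (P : ∀ σ, Matrix (Fin (2 * g)) (Fin (d σ)) ℂ)
    (Q : ∀ σ, Matrix (Fin (d σ)) (Fin (2 * g)) ℂ) : Prop where
  /-- the parts are not zero -/
  pos : ∀ σ, 0 < d σ
  /-- the ranks -/
  rank : ∀ σ, r σ = 3 ∨ 6 ≤ r σ
  /-- the rank `8` occurs at most once -/
  eight : ∀ σ τ, r σ = 8 → r τ = 8 → σ = τ
  /-- the relations of the Clifford algebras -/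
  square : ∀ σ i, E σ i * E σ i = 1
  anti : ∀ σ i j, i ≠ j → E σ i * E σ j = -(E σ j * E σ i)
  /-- the sum of the parts is direct -/
  proj : ∀ σ, Q σ * P σ = 1
  orth : ∀ σ τ, σ ≠ τ → Q σ * P τ = 0
  /-- the parts and their complement are stable under `𝔤` -/
  stable : ∀ X, InLie A X → ∀ σ, P σ * Q σ * toC A X = toC A X * (P σ * Q σ)
  /-- `𝔤` acts through the orthogonal Lie algebras and scalars, which depend only on the rank -/
  acts : ∀ X, InLie A X → ∃ t : Fin l → ℂ, (∀ σ τ, r σ = r τ → t σ = t τ) ∧
    ∀ σ, Q σ * toC A X * P σ + t σ • (1 : Matrix (Fin (d σ)) (Fin (d σ)) ℂ) ∈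
      Submodule.span ℂ {Y | ∃ i j, i ≠ j ∧ Y = E σ i * E σ j}
  /-- the associative algebra generated by `𝔤 ⊗ ℂ` contains elements which act on `W_σ` like the
  products, and by zero on the other parts of the same rank -/
  generates : ∀ σ i j, i ≠ j → ∃ Y ∈ Algebra.adjoin ℂ (lieC A : Set (EndC A)),
    Q σ * Y * P σ = E σ i * E σ j ∧ ∀ τ, τ ≠ σ → r τ = r σ → Q τ * Y * P τ = 0

/-! ### The dimension of the Lie algebra at a place -/

/-- `x` is a vector in the sum of the eigenspaces of `z` for `i a` and `- i a` in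
`H_1(A, ℝ) = ℂ ^ g`. -/
def AtPlace (z : EndQ A) (a : ℝ) (x : Fin g → ℂ) : Prop :=
  A.ext z (A.ext z x) + (a ^ 2) • x = 0

/-- The coordinates of a vector of `H_1(A, ℝ) = ℂ ^ g` for the basis of the lattice. -/
def coordinates (x : Fin g → ℂ) : Fin (2 * g) → ℂ := fun j => ((A.lam.repr x j : ℝ) : ℂ)

/-- The dimension of the complex Lie algebra `[𝔤, 𝔤] ⊗ ℂ` of operators on the sum of the eigenspaces of
`z` for `± i a` (the operators are given as functions on this sum, with values in `H_1(A, ℂ)`). At a place
of signature `(r, s)` it is `N ² - 1`, `N = r + s`. -/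
def dimensionAt (z : EndQ A) (a : ℝ) : ℕ :=
  Set.finrank ℂ {f : {x // AtPlace A z a x} → Fin (2 * g) → ℂ |
    ∃ X ∈ derivedLie A, f = fun x => toC A X *ᵥ coordinates A x.1}

/-! ### The domain -/

/-- The matrix of the multiplication by `i` on `H_1(A, ℝ) = ℂ ^ g`, for the basis of the lattice. -/
def complexStructure : EndC A := Matrix.of fun i j => ((A.lam.repr (Complex.I • A.lam j) i : ℝ) : ℂ)

/-- The combination of the endomorphisms `X j` with the complex coefficients `c j`. -/
def combination {m : ℕ} (c : Fin m → ℂ) (X : Fin m → EndQ A) : EndC A := ∑ j, c j • toC A (X j)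

/-- The part of the Hodge group of `C` which acts trivially on the image of the projector `E` and on the
eigenspaces of the `z i` for `± i a i` acts trivially on the Mumford-Tate domain of the factor `A` of
`C`: if a complex combination of elements `X_j` of the derived algebra `[𝔤, 𝔤]` of the Lie algebra of the
Hodge group of `C` is zero on these spaces, then its restriction to `H_1(A, ℂ)` commutes with the
complex structure. -/
def DomainOfParts (f : A.H1 →ₗ[ℚ] C.H1) (p : C.H1 →ₗ[ℚ] A.H1) (z : Fin k → EndQ C)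
    (a : Fin k → ℝ) (E : EndC C) : Prop :=
  ∀ (m : ℕ) (c : Fin m → ℂ) (X : Fin m → EndQ C), (∀ j, X j ∈ derivedLie C) →
    E * combination C c X = 0 →
    (∀ i x, AtPlace C (z i) (a i) x → combination C c X *ᵥ coordinates C x = 0) →
      combination A c (fun j => restr A C f p (X j)) * complexStructure A =
        complexStructure A * combination A c (fun j => restr A C f p (X j))

end Run7.h2.UOD.O
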