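import Pool.Agent.Run7.h2.UO.V1
import Pool.Agent.Run7.h2.UO.ODefs
import Pool.Agent.Run7.h2.UO.Main

set_option autoImplicit false

/-!
# 1-motives, unitary places and spin parts: the proof
-/

open Module Matrix Pool.Agent Pool.Agent.Y102 Pool.Agent.R917.OM Pool.Agent.R917.BX
  Pool.Agent.W516.DR Pool.Agent.H204R3.GP Pool.Agent.N208.UR Pool.Agent.N208.OneM

noncomputable section

namespace Run7.h2.UOD.O

section Dim

variable {g : ℕ} {A : AbVar g}

theorem dim_eq (z : EndQ A) (a : ℝ) :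
    dimensionAt A z a = finrank ℂ ((_root_.Pool.Agent.Run7.h2.OR.spM (Y102.der A.NA)).map
      (_root_.Pool.Agent.Run7.h2.UO.rho A (N208.BT.V0 A z a))) := by
  have h1 : (_root_.Pool.Agent.Run7.h2.OR.spM (Y102.der A.NA)).map
      (_root_.Pool.Agent.Run7.h2.UO.rho A (N208.BT.V0 A z a)) =
      Submodule.span ℂ {f : N208.BT.V0 A z a → Fin (2 * g) → ℂ | ∃ X ∈ derivedLie A,
        f = fun x => toC A X *ᵥ coordinates A x.1} := by
    unfold _root_.Pool.Agent.Run7.h2.OR.spM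
    rw [Submodule.map_span]
    congr 1
    ext f
    constructor
    · rintro ⟨_, ⟨X, hX, rfl⟩, rfl⟩
      refine ⟨X, (Submodule.span_mono ?_) hX, rfl⟩
      rintro _ ⟨X, hX, Y, hY, rfl⟩
      exact ⟨X, hX, Y, hY, rfl⟩
    · rintro ⟨X, hX, rfl⟩
      refine ⟨toC A X, ⟨X, (Submodule.span_mono ?_) hX, rfl⟩, rfl⟩
      rintro _ ⟨X, hX, Y, hY, rfl⟩
      exact ⟨X, hX, Y, hY, rfl⟩
  rw [h1]
  rfl

end Dim

end Run7.h2.UOD.O
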