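import Pool.Agent.Run7.h2.UO.OMain
import Pool.Agent.Run7.h2.EXT.O

set_option autoImplicit false

/-!
# 1-motives, odd balls, unitary places and spin parts: the proof
-/

open Module Matrix Pool.Agent Pool.Agent.Y102 Pool.Agent.R917.OM Pool.Agent.R917.BX
  Pool.Agent.W516.DR Pool.Agent.H204R3.GP Pool.Agent.N208.UR Pool.Agent.N208.OneM

noncomputable section

namespace Run7.h2.UQ

open Run7.h2.OB.SO Run7.h2.UOD.O

theorem main (g n s : ℕ) (A : AbVarG g) (u : Fin n → Fin g → ℂ) (v : Fin s → Fin g → ℂ)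
    (ℓ : Fin n → Fin s → ℂ) (hM : IsOneMotive A u v ℓ)
    (G : Subgroup (GL (Betti g n s) ℂ)) (hG : IsAlgebraicSubgroup G)
    (hP : ContainsPeriods A u v ℓ G) (g' : ℕ) (C : AbVar g') (f : A.toAbVar.H1 →ₗ[ℚ] C.H1)
    (p : C.H1 →ₗ[ℚ] A.toAbVar.H1) (hF : IsFactor A.toAbVar C f p)
    (k : ℕ) (z : Fin k → EndQ C) (a : Fin k → ℝ) (hU : Run7.h2.EXT.O.Places C z a)
    (l : ℕ) (rk d : Fin l → ℕ)
    (E : ∀ σ, Fin (rk σ) → Matrix (Fin (d σ)) (Fin (d σ)) ℂ)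
    (PW : ∀ σ, Matrix (Fin (2 * g')) (Fin (d σ)) ℂ)
    (QW : ∀ σ, Matrix (Fin (d σ)) (Fin (2 * g')) ℂ) (hS : SpinParts C E PW QW)
    (hdim : ∀ i σ, 2 * dimensionAt C (z i) (a i) ≠ rk σ * (rk σ - 1))
    (hD : DomainOfParts A.toAbVar C f p z a (∑ σ, PW σ * QW σ)) :
    (∀ Z ∈ derived (mtLie A u v ℓ), ∀ t : ℂ, IsIn G (NormedSpace.exp (t • cplx Z))) ∧
      (RigidCentre C → mumfordTate A u v ℓ ≤ G) := by
  have hparts : _root_.Pool.Agent.Run7.h2.OR.Parts C E PW QW :=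
    ⟨hS.square, hS.anti, hS.pos, hS.rank, hS.eight, hS.proj, hS.orth, hS.stable, hS.acts,
      hS.generates⟩
  have hH := (Run7.h2.EXT.O.places_conv hU).toHGI C
  have hr : _root_.Pool.Agent.Run7.h2.UO.Jt C (matE (2 * g') (∑ σ, PW σ * QW σ))
      (_root_.Run7.h2.OB.UI C z a) := by
    refine _root_.Pool.Agent.Run7.h2.UO.jt hH hparts fun i σ h0 => hdim i σ ?_
    rw [dim_eq, h0]
    exact Run7.h2.UOD.so_dim (hparts.r3 σ) (hS.pos σ) (hparts.CE' σ)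
  have hJ : _root_.Pool.Agent.Run7.h2.UO.cR A.toAbVar AbVar.JJ = complexStructure A.toAbVar := by
    ext i j
    rw [_root_.Pool.Agent.Run7.h2.UO.cR_apply, AbVar.JJ_apply]
    rfl
  have hα : ∀ N, N208.AM.RelR (N208.OU.hB p) (AbVar.JJ : (Fin g' → ℂ) →ₗ[ℝ] (Fin g' → ℂ)) N →
      _root_.Pool.Agent.Run7.h2.UO.DomJ (matE (2 * g') (∑ σ, PW σ * QW σ))
        (_root_.Run7.h2.OB.UI C z a) (N208.OU.hB p) N := by
    intro N hN
    refine _root_.Pool.Agent.Run7.h2.UO.domJ_of (hfac hF) (fun m c X hX h0 hk => ?_) hN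
    rw [hJ]
    refine hD m c X (fun j => ?_) h0 fun i x hx => hk x ⟨i, hx⟩
    refine (Submodule.span_mono ?_) (hX j)
    rintro _ ⟨X, hX, Y, hY, rfl⟩
    exact ⟨X, hX, Y, hY, rfl⟩
  exact ⟨fun Z hZ t => _root_.Pool.Agent.Run7.h2.UO.main_two3 hM hG hP hF hr hα hZ t,
    fun hR => _root_.Pool.Agent.Run7.h2.UO.main_three3 hM hG hP hF hr hα hR⟩

end Run7.h2.UQ
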