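import Mathlib

set_option autoImplicit false

/-!
# The matrices of trace zero form a simple Lie algebra
-/

open Matrix

noncomputable section

namespace Pool.Agent.Run7.h2.UO

variable {N : ℕ} {K : Submodule ℂ (Matrix (Fin N) (Fin N) ℂ)}

/-- the elementary matrix -/
def el (p q : Fin N) : Matrix (Fin N) (Fin N) ℂ := Matrix.single p q 1

theorem el_mul (p q r s : Fin N) : el p q * el r s = if q = r then el p s else 0 := by
  unfold el
  split_ifs with h
  · subst h
    rw [Matrix.single_mul_single_same, one_mul]
  · rw [Matrix.single_mul_single_of_ne _ _ _ _ h]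

theorem el_mul_mul (p q r s : Fin N) (k : Matrix (Fin N) (Fin N) ℂ) :
    el p q * k * el r s = k q r • el p s := by
  unfold el
  ext i j
  rw [Matrix.mul_apply, Matrix.smul_apply]
  rw [Finset.sum_eq_single r]
  · rw [Matrix.mul_apply, Finset.sum_eq_single q]
    · by_cases h1 : p = i
      · subst h1
        by_cases h2 : s = j
        · subst h2
          simp [Matrix.single]
        · simp [Matrix.single, h2]
      · simp [Matrix.single, h1]
    · intro b _ hb
      simp [Matrix.single, Ne.symm hb]
    · intro h
      exact absurd (Finset.mem_univ _) h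
  · intro b _ hb
    simp [Matrix.single, Ne.symm hb]
  · intro h
    exact absurd (Finset.mem_univ _) h

theorem swap_mem (hid : ∀ x : Matrix (Fin N) (Fin N) ℂ, ∀ k ∈ K, x * k - k * x ∈ K)
    {p q : Fin N} (hpq : p ≠ q) {k : Matrix (Fin N) (Fin N) ℂ} (hk : k ∈ K) (h0 : k p q ≠ 0) :
    el q p ∈ K := by
  have h1 := hid (el q p) _ (hid (el q p) k hk)
  have h2 : el q p * el q p = 0 := by rw [el_mul, if_neg hpq]
  have h3 : el q p * (el q p * k - k * el q p) - (el q p * k - k * el q p) * el q p =
      (-2 * k p q) • el q p := by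
    have e1 : el q p * (el q p * k - k * el q p) - (el q p * k - k * el q p) * el q p =
        el q p * el q p * k - (2 : ℂ) • (el q p * k * el q p) + k * (el q p * el q p) := by
      simp only [mul_sub, sub_mul, ← mul_assoc, two_smul]
      abel
    rw [e1, h2, zero_mul, mul_zero, el_mul_mul, smul_smul, zero_sub, add_zero, neg_mul, neg_smul]
  rw [h3] at h1
  have h4 := K.smul_mem (-2 * k p q)⁻¹ h1
  rwa [smul_smul, inv_mul_cancel₀ (mul_ne_zero (by norm_num) h0), one_smul] at h4

theorem el_apply_ne (p q : Fin N) : (el p q) p q ≠ 0 := by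
  simp [el, Matrix.single]

/-- **The matrices of trace zero form a simple Lie algebra.** -/
theorem sl_simple (htr : ∀ k ∈ K, k.trace = 0)
    (hid : ∀ x : Matrix (Fin N) (Fin N) ℂ, ∀ k ∈ K, x * k - k * x ∈ K)
    {k : Matrix (Fin N) (Fin N) ℂ} (hk : k ∈ K) (h0 : k ≠ 0) :
    ∀ m : Matrix (Fin N) (Fin N) ℂ, m.trace = 0 → m ∈ K := by
  -- one elementary matrix
  have hA : ∃ p q : Fin N, p ≠ q ∧ el p q ∈ K := by
    by_cases hd : ∃ p q : Fin N, p ≠ q ∧ k p q ≠ 0
    · obtain ⟨p, q, hpq, hne⟩ := hd
      exact ⟨q, p, hpq.symm, swap_mem hid hpq hk hne⟩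
    · push Not at hd
      have h1 : ∃ p q : Fin N, k p p ≠ k q q := by
        by_contra hcon
        push Not at hcon
        apply h0
        ext i j
        by_cases hij : i = j
        · subst hij
          have h2 := htr k hk
          have h3 : k.trace = ∑ _j : Fin N, k i i :=
            Finset.sum_congr rfl fun j _ => hcon j i
          rw [h3, Finset.sum_const, Finset.card_univ, Fintype.card_fin, nsmul_eq_mul] at h2
          have h4 : (N : ℂ) ≠ 0 := by
            have : 0 < N := lt_of_le_of_lt (Nat.zero_le _) i.2
            exact_mod_cast this.ne'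
          exact (mul_eq_zero.1 h2).resolve_left h4
        · exact hd i j hij
      obtain ⟨p, q, hne⟩ := h1
      have hpq : p ≠ q := fun h => hne (by rw [h])
      refine ⟨p, q, hpq, ?_⟩
      have h2 := hid (el p q) k hk
      have h3 : el p q * k - k * el p q = (k q q - k p p) • el p q := by
        unfold el
        ext i j
        rw [Matrix.sub_apply, Matrix.smul_apply, Matrix.mul_apply, Matrix.mul_apply,
          Finset.sum_eq_single q, Finset.sum_eq_single p]
        · by_cases h1 : p = i
          · subst h1
            by_cases h2 : q = j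
            · subst h2
              simp [Matrix.single]
            · simp [Matrix.single, h2, hd q j h2]
          · by_cases h2 : q = j
            · subst h2
              simp [Matrix.single, h1, hd i p (Ne.symm h1)]
            · simp [Matrix.single, h1, h2]
        · intro b _ hb
          simp [Matrix.single, Ne.symm hb]
        · intro h
          exact absurd (Finset.mem_univ _) h
        · intro b _ hb
          simp [Matrix.single, Ne.symm hb]
        · intro h
          exact absurd (Finset.mem_univ _) h
      rw [h3] at h2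
      have h4 := K.smul_mem (k q q - k p p)⁻¹ h2
      rwa [smul_smul, inv_mul_cancel₀ (sub_ne_zero.2 (Ne.symm hne)), one_smul] at h4
  obtain ⟨p, q, hpq, hE⟩ := hA
  have hsw : ∀ {p q : Fin N}, p ≠ q → el p q ∈ K → el q p ∈ K := fun {p q} hpq h =>
    swap_mem hid hpq h (el_apply_ne p q)
  have hS : ∀ {p q : Fin N}, p ≠ q → el p q ∈ K → ∀ s, s ≠ p → el p s ∈ K := by
    intro p q hpq h s hs
    by_cases hsq : q = s
    · rw [← hsq]; exact h
    have h1 := hid (el q s) _ h
    rw [el_mul, el_mul, if_neg hs, if_pos rfl, zero_sub] at h1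
    have h2 := K.neg_mem h1
    rwa [neg_neg] at h2
  have hB : ∀ p' q' : Fin N, p' ≠ q' → el p' q' ∈ K := by
    intro p' q' h
    by_cases hp : p' = p
    · subst hp
      exact hS hpq hE q' (Ne.symm h)
    · -- first reach the pair (p, p'), swap it
      have h1 : el p p' ∈ K := hS hpq hE p' hp
      exact hS (Ne.symm (Ne.symm hp)) (hsw (Ne.symm hp) h1) q' (Ne.symm h)
  have hC : ∀ i j : Fin N, el i i - el j j ∈ K := by
    intro i j
    by_cases hij : i = j
    · rw [hij, sub_self]
      exact K.zero_mem
    · have h1 := hid (el i j) _ (hB j i (Ne.symm hij))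
      rwa [el_mul, el_mul, if_pos rfl, if_pos rfl] at h1
  intro m hm
  have hsm : ∀ (i j : Fin N) (c : ℂ), Matrix.single i j c = c • el i j := by
    intro i j c
    rw [el, Matrix.smul_single, smul_eq_mul, mul_one]
  have h1 : m = ∑ i, (∑ j, m i j • el i j - m i i • el p p) := by
    rw [Finset.sum_sub_distrib, ← Finset.sum_smul]
    have h2 : ∑ i, m i i = 0 := hm
    rw [h2, zero_smul, sub_zero]
    conv_lhs => rw [Matrix.matrix_eq_sum_single m]
    exact Finset.sum_congr rfl fun i _ => Finset.sum_congr rfl fun j _ => hsm i j _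
  rw [h1]
  refine K.sum_mem fun i _ => ?_
  rw [← Finset.add_sum_erase _ _ (Finset.mem_univ i)]
  have h2 : m i i • el i i + ∑ x ∈ Finset.univ.erase i, m i x • el i x - m i i • el p p =
      m i i • (el i i - el p p) + ∑ x ∈ Finset.univ.erase i, m i x • el i x := by
    rw [smul_sub]
    abel
  rw [h2]
  exact K.add_mem (K.smul_mem _ (hC i p)) (K.sum_mem fun j hj =>
    K.smul_mem _ (hB i j (Ne.symm (Finset.ne_of_mem_erase hj))))

end Pool.Agent.Run7.h2.UO
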