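import Pool.Agent.Run7.h2.UO.U1
import Pool.Agent.Run7.h2.OR.O9
import Pool.Agent.Run7.h2.OB.SG

set_option autoImplicit false
set_option linter.unusedSectionVars false

/-!
# Real and complex operators
-/

open Module Function Matrix

noncomputable section

namespace Pool.Agent.Run7.h2.UO

open Pool.Agent.Y102 Pool.Agent.W516.DR Pool.Agent.H204R3.GP Pool.Agent.N208.AD
  Pool.Agent.N208.BT

variable {g : ℕ} {A : AbVar g}

/-- the coordinates of a vector -/
def vec (A : AbVar g) (x : Fin g → ℂ) : Fin (2 * g) → ℂ := fun j => ((A.lam.repr x j : ℝ) : ℂ)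

theorem vec_zero : vec A 0 = 0 := by
  funext j
  simp [vec]

/-- the complex matrix of a real operator -/
def cR (A : AbVar g) : Module.End ℝ (Fin g → ℂ) →ₗ[ℝ] Matrix (Fin (2 * g)) (Fin (2 * g)) ℂ where
  toFun y := (LinearMap.toMatrix A.lam A.lam y).map fun q : ℝ => (q : ℂ)
  map_add' y y' := by
    ext i j
    simp [Matrix.map_apply]
  map_smul' c y := by
    ext i j
    simp [Matrix.map_apply]

theorem cR_apply (y : Module.End ℝ (Fin g → ℂ)) (i j : Fin (2 * g)) :
    cR A y i j = ((A.lam.repr (y (A.lam j)) i : ℝ) : ℂ) := by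
  change ((LinearMap.toMatrix A.lam A.lam y i j : ℝ) : ℂ) = _
  rw [LinearMap.toMatrix_apply]

theorem cR_vec (y : Module.End ℝ (Fin g → ℂ)) (x : Fin g → ℂ) :
    cR A y *ᵥ vec A x = vec A (y x) := by
  funext i
  have h1 : A.lam.repr (y x) i = ∑ j, A.lam.repr (y (A.lam j)) i * A.lam.repr x j := by
    conv_lhs => rw [← A.lam.sum_repr x]
    rw [map_sum, map_sum, Finsupp.finsetSum_apply]
    refine Finset.sum_congr rfl fun j _ => ?_
    rw [map_smul, map_smul, Finsupp.smul_apply, smul_eq_mul, mul_comm]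
  change ∑ j, cR A y i j * vec A x j = ((A.lam.repr (y x) i : ℝ) : ℂ)
  rw [h1, Complex.ofReal_sum]
  refine Finset.sum_congr rfl fun j _ => ?_
  rw [cR_apply, Complex.ofReal_mul]
  rfl

theorem cR_mul (y y' : Module.End ℝ (Fin g → ℂ)) : cR A (y * y') = cR A y * cR A y' := by
  ext i j
  have h1 : (cR A (y * y')) i j = (cR A y *ᵥ vec A (y' (A.lam j))) i := by
    rw [cR_vec, cR_apply]
    rfl
  rw [h1, Matrix.mul_apply]
  change ∑ k, cR A y i k * vec A (y' (A.lam j)) k = ∑ k, cR A y i k * cR A y' k j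
  refine Finset.sum_congr rfl fun k _ => ?_
  rw [cR_apply y' k j]
  rfl

theorem cR_ext (X : Module.End ℚ A.H1) : cR A (A.ext X) = Y102.toC X := by
  ext i j
  rw [cR_apply]
  have h1 : A.lam j = A.per (Pi.single j 1) := by
    rw [← A.per_bas, AbVar.bas, Pi.basisFun_apply]
  rw [h1, A.ext_apply, A.repr_per]
  change ((((X (Pi.single j 1)) i : ℚ) : ℝ) : ℂ) = (((X (Pi.single j 1)) i : ℚ) : ℂ)
  norm_cast

theorem vec_eq {x x' : Fin g → ℂ} (h : vec A x + Complex.I • vec A x' = 0) : x = 0 ∧ x' = 0 := by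
  have h1 : ∀ j, A.lam.repr x j = 0 ∧ A.lam.repr x' j = 0 := by
    intro j
    have h2 := congrFun h j
    change ((A.lam.repr x j : ℝ) : ℂ) + Complex.I * ((A.lam.repr x' j : ℝ) : ℂ) = 0 at h2
    have h3 := congrArg Complex.re h2
    have h4 := congrArg Complex.im h2
    simp at h3 h4
    exact ⟨h3, h4⟩
  constructor
  · apply A.lam.repr.injective
    ext j
    rw [(h1 j).1, map_zero]
    rfl
  · apply A.lam.repr.injective
    ext j
    rw [(h1 j).2, map_zero]
    rfl

/-- The elements of the complex span are given by two elements of the real span. -/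
theorem spM_split {S : Submodule ℚ (Module.End ℚ A.H1)}
    {Y : Matrix (Fin (2 * g)) (Fin (2 * g)) ℂ} (hY : Y ∈ Run7.h2.OR.spM S) :
    ∃ y ∈ spE A (S : Set (Module.End ℚ A.H1)), ∃ y' ∈ spE A (S : Set (Module.End ℚ A.H1)),
      Y = cR A y + Complex.I • cR A y' := by
  refine Submodule.span_induction (p := fun Y _ =>
    ∃ y ∈ spE A (S : Set (Module.End ℚ A.H1)), ∃ y' ∈ spE A (S : Set (Module.End ℚ A.H1)),
      Y = cR A y + Complex.I • cR A y') ?_ ?_ ?_ ?_ hY
  · rintro _ ⟨X, hX, rfl⟩
    exact ⟨A.ext X, mem_spE (S := (S : Set (Module.End ℚ A.H1))) hX, 0, Submodule.zero_mem _, by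
      rw [cR_ext, map_zero, smul_zero, add_zero]⟩
  · exact ⟨0, Submodule.zero_mem _, 0, Submodule.zero_mem _, by
      rw [map_zero, smul_zero, add_zero]⟩
  · rintro _ _ _ _ ⟨a, ha, a', ha', rfl⟩ ⟨b, hb, b', hb', rfl⟩
    refine ⟨a + b, Submodule.add_mem _ ha hb, a' + b', Submodule.add_mem _ ha' hb', ?_⟩
    rw [map_add, map_add, smul_add]
    abel
  · rintro c _ _ ⟨a, ha, a', ha', rfl⟩
    refine ⟨c.re • a - c.im • a', Submodule.sub_mem _ (Submodule.smul_mem _ _ ha)
      (Submodule.smul_mem _ _ ha'), c.re • a' + c.im • a, Submodule.add_mem _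
      (Submodule.smul_mem _ _ ha') (Submodule.smul_mem _ _ ha), ?_⟩
    ext i j
    simp only [map_sub, map_add, map_smul, Matrix.smul_apply, Matrix.add_apply, Matrix.sub_apply,
      smul_eq_mul, Complex.real_smul]
    have h1 : c = c.re + c.im * Complex.I := (Complex.re_add_im c).symm
    have h2 : c * (cR A a i j + Complex.I * cR A a' i j) =
        (c.re + c.im * Complex.I) * (cR A a i j + Complex.I * cR A a' i j) := by
      rw [← h1]
    rw [h2]
    linear_combination (c.im * cR A a' i j) * Complex.I_mul_I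

theorem cR_mem {S : Submodule ℚ (Module.End ℚ A.H1)} {y : Module.End ℝ (Fin g → ℂ)}
    (hy : y ∈ spE A (S : Set (Module.End ℚ A.H1))) : cR A y ∈ Run7.h2.OR.spM S := by
  induction hy using Submodule.span_induction with
  | mem y hy =>
    obtain ⟨X, hX, rfl⟩ := hy
    rw [cR_ext]
    exact Submodule.subset_span ⟨X, hX, rfl⟩
  | zero => rw [map_zero]; exact Submodule.zero_mem _
  | add a b _ _ ha hb => rw [map_add]; exact Submodule.add_mem _ ha hb
  | smul c a _ ha =>
    rw [map_smul]
    have h1 : c • cR A a = (c : ℂ) • cR A a := by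
      ext i j
      simp
    rw [h1]
    exact Submodule.smul_mem _ _ ha

/-- A real operator kills a complex vector if it kills the parts. -/
theorem kill_iff {y y' : Module.End ℝ (Fin g → ℂ)} {x : Fin g → ℂ}
    (h : (cR A y + Complex.I • cR A y') *ᵥ vec A x = 0) : y x = 0 ∧ y' x = 0 := by
  rw [Matrix.add_mulVec, Matrix.smul_mulVec, cR_vec, cR_vec] at h
  exact vec_eq h

end Pool.Agent.Run7.h2.UO
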