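import Pool.Agent.Run7.h2.UO.U2

set_option autoImplicit false
set_option linter.unusedSectionVars false

/-!
# Ideals of the complexification at a unitary place
-/

open Module Function Matrix

noncomputable section

namespace Pool.Agent.Run7.h2.UO

open Pool.Agent.Y102 Pool.Agent.W516.DR Pool.Agent.H204R3.GP Pool.Agent.N208.AD
  Pool.Agent.N208.BT Pool.Agent.N441.BGSJ

variable {g : ℕ} {A : AbVar g} {N : ℕ} {sg : Fin N → ℝ}

/-! ### Skew-hermitian matrices -/

theorem hs_mul (X : MN N) (x y : VN N) :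
    hs sg (X *ᵥ x) y = ∑ i, ∑ j, (sg i : ℂ) * X i j * (x j * star (y i)) := by
  unfold hs
  refine Finset.sum_congr rfl fun i _ => ?_
  change (sg i : ℂ) * (∑ j, X i j * x j) * star (y i) = _
  rw [Finset.mul_sum, Finset.sum_mul]
  refine Finset.sum_congr rfl fun j _ => ?_
  ring

theorem hs_mul' (X : MN N) (x y : VN N) :
    hs sg x (X *ᵥ y) = ∑ i, ∑ j, (sg j : ℂ) * star (X j i) * (x j * star (y i)) := by
  unfold hs
  rw [Finset.sum_comm]
  refine Finset.sum_congr rfl fun j _ => ?_
  change (sg j : ℂ) * x j * star (∑ i, X j i * y i) = _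
  rw [star_sum, Finset.mul_sum]
  refine Finset.sum_congr rfl fun i _ => ?_
  rw [star_mul']
  ring

theorem sks_iff (X : MN N) : IsSks sg X ↔
    ∀ i j, (sg i : ℂ) * X i j + (sg j : ℂ) * star (X j i) = 0 := by
  constructor
  · intro h i j
    have h1 := h (Pi.single j 1) (Pi.single i 1)
    rw [hs_mul, hs_mul', Finset.sum_eq_single i, Finset.sum_eq_single j, Finset.sum_eq_single i,
      Finset.sum_eq_single j] at h1
    · simpa using h1
    · intro b _ hb
      rw [Pi.single_eq_of_ne hb, zero_mul, mul_zero]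
    · intro h
      exact absurd (Finset.mem_univ _) h
    · intro b _ hb
      refine Finset.sum_eq_zero fun c _ => ?_
      rw [Pi.single_eq_of_ne hb, star_zero, mul_zero, mul_zero]
    · intro h
      exact absurd (Finset.mem_univ _) h
    · intro b _ hb
      rw [Pi.single_eq_of_ne hb, zero_mul, mul_zero]
    · intro h
      exact absurd (Finset.mem_univ _) h
    · intro b _ hb
      refine Finset.sum_eq_zero fun c _ => ?_
      rw [Pi.single_eq_of_ne hb, star_zero, mul_zero, mul_zero]
    · intro h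
      exact absurd (Finset.mem_univ _) h
  · intro h x y
    rw [hs_mul, hs_mul', ← Finset.sum_add_distrib]
    refine Finset.sum_eq_zero fun i _ => ?_
    rw [← Finset.sum_add_distrib]
    refine Finset.sum_eq_zero fun j _ => ?_
    rw [← add_mul, h i j, zero_mul]

theorem sg_sq (hsg : IsSg sg) (i : Fin N) : (sg i : ℂ) * sg i = 1 := by
  rcases hsg i with h | h <;> rw [h] <;> norm_num

/-- Two skew-hermitian matrices. -/
theorem sks_zero (hsg : IsSg sg) {m m' : MN N} (h : IsSks sg m) (h' : IsSks sg m')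
    (h0 : m + Complex.I • m' = 0) : m = 0 ∧ m' = 0 := by
  have h1 := (sks_iff m).1 h
  have h2 := (sks_iff m').1 h'
  have h3 : ∀ i j, m i j = -(Complex.I * m' i j) := by
    intro i j
    have h4 := congrFun (congrFun h0 i) j
    rw [Matrix.add_apply, Matrix.smul_apply, smul_eq_mul, Matrix.zero_apply] at h4
    exact eq_neg_of_add_eq_zero_left h4
  have h5 : m' = 0 := by
    ext i j
    have k1 := h1 i j
    rw [h3, h3, star_neg, star_mul', show star Complex.I = -Complex.I from Complex.conj_I] at k1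
    have k2 := h2 i j
    have k3 : (sg i : ℂ) * m' i j = 0 := by
      have k4 : Complex.I * (2 * ((sg i : ℂ) * m' i j)) = 0 := by
        linear_combination -k1 + Complex.I * k2
      have k5 := (mul_eq_zero.1 k4).resolve_left Complex.I_ne_zero
      exact (mul_eq_zero.1 k5).resolve_left two_ne_zero
    have k6 : m' i j = (sg i : ℂ) * ((sg i : ℂ) * m' i j) := by
      rw [← mul_assoc, sg_sq hsg, one_mul]
    rw [k6, k3, mul_zero, Matrix.zero_apply]
  refine ⟨?_, h5⟩
  ext i j
  rw [h3, h5, Matrix.zero_apply, mul_zero, neg_zero]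

/-- The matrices of trace zero are combinations of skew-hermitian matrices of trace zero. -/
theorem sks_dec (hsg : IsSg sg) {M : MN N} (hM : M.trace = 0) : ∃ a b : MN N,
    IsSks sg a ∧ a.trace = 0 ∧ IsSks sg b ∧ b.trace = 0 ∧ M = a + Complex.I • b := by
  have htr : ∑ i, star (M i i) = 0 := by
    have h1 : ∑ i, M i i = 0 := hM
    rw [← star_sum, h1, star_zero]
  refine ⟨Matrix.of fun i j => (M i j - sg i * sg j * star (M j i)) / 2,
    Matrix.of fun i j => -(Complex.I * (M i j + sg i * sg j * star (M j i))) / 2, ?_, ?_, ?_, ?_,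
    ?_⟩
  · refine (sks_iff _).2 fun i j => ?_
    have e1 : star ((sg j : ℂ)) = sg j := Complex.conj_ofReal _
    have e2 : star ((sg i : ℂ)) = sg i := Complex.conj_ofReal _
    simp only [Matrix.of_apply, star_div₀, star_sub, star_mul', star_star, e1, e2]
    rw [show star (2 : ℂ) = 2 from by simp]
    linear_combination (-(1 : ℂ) / 2) * sg j * star (M j i) * sg_sq hsg i -
      (1 / 2) * sg i * M i j * sg_sq hsg j
  · change ∑ i, (M i i - sg i * sg i * star (M i i)) / 2 = 0
    rw [← Finset.sum_div, Finset.sum_sub_distrib]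
    have h1 : ∑ i, (sg i : ℂ) * sg i * star (M i i) = 0 := by
      rw [← htr]
      exact Finset.sum_congr rfl fun i _ => by rw [sg_sq hsg, one_mul]
    have h2 : ∑ i, M i i = 0 := hM
    rw [h1, h2, sub_zero, zero_div]
  · refine (sks_iff _).2 fun i j => ?_
    have e1 : star ((sg j : ℂ)) = sg j := Complex.conj_ofReal _
    have e2 : star ((sg i : ℂ)) = sg i := Complex.conj_ofReal _
    simp only [Matrix.of_apply, star_div₀, star_neg, star_add, star_mul', star_star, e1, e2]
    rw [show star (2 : ℂ) = 2 from by simp, show star Complex.I = -Complex.I from Complex.conj_I]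
    linear_combination (-(1 : ℂ) / 2) * Complex.I * sg j * star (M j i) * sg_sq hsg i +
      (1 / 2) * Complex.I * sg i * M i j * sg_sq hsg j
  · change ∑ i, -(Complex.I * (M i i + sg i * sg i * star (M i i))) / 2 = 0
    rw [← Finset.sum_div, Finset.sum_neg_distrib, ← Finset.mul_sum, Finset.sum_add_distrib]
    have h1 : ∑ i, (sg i : ℂ) * sg i * star (M i i) = 0 := by
      rw [← htr]
      exact Finset.sum_congr rfl fun i _ => by rw [sg_sq hsg, one_mul]
    have h2 : ∑ i, M i i = 0 := hM
    rw [h1, h2, add_zero, mul_zero, neg_zero, zero_div]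
  · ext i j
    simp only [Matrix.add_apply, Matrix.smul_apply, Matrix.of_apply, smul_eq_mul]
    linear_combination (1 / 2) * (M i j + sg i * sg j * star (M j i)) * Complex.I_mul_I

/-! ### Ideals -/

variable {z : Module.End ℚ A.H1} {al : ℝ} {φ : VN N →ₗ[ℝ] (Fin g → ℂ)}

/-- An ideal of the complexification is zero or everything at a unitary place. -/
theorem dich (h : HQ A z al) (w : WN A z al N sg φ) (hmx : Mixed sg)
    {𝔮 : Submodule ℚ (Module.End ℚ A.H1)} (hq : A.Full 𝔮) (hB : Big sg (rN A (der 𝔮) φ))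
    (J : Submodule ℂ (Matrix (Fin (2 * g)) (Fin (2 * g)) ℂ)) (hJ : J ≤ Run7.h2.OR.spM (der 𝔮))
    (hid : ∀ Y ∈ Run7.h2.OR.spM (der 𝔮), ∀ Z ∈ J, Y * Z - Z * Y ∈ J) :
    (∀ Y ∈ J, ∀ x, Y *ᵥ vec A (φ x) = 0) ∨
      ∀ m ∈ rN A (der 𝔮) φ, ∃ Y ∈ J, ∀ x, Y *ᵥ vec A (φ x) = vec A (φ (m *ᵥ x)) := by
  have hr := N755.BGRR.main g A z al h N sg φ w 𝔮 hq
  have hact : ∀ {y y' : Module.End ℝ (Fin g → ℂ)} {m m' : MN N}, (∀ x, y (φ x) = φ (m *ᵥ x)) →
      (∀ x, y' (φ x) = φ (m' *ᵥ x)) → ∀ x, (cR A y + Complex.I • cR A y') *ᵥ vec A (φ x) =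
        vec A (φ (m *ᵥ x)) + Complex.I • vec A (φ (m' *ᵥ x)) := by
    intro y y' m m' h1 h2 x
    rw [Matrix.add_mulVec, Matrix.smul_mulVec, cR_vec, cR_vec, h1, h2]
  let K : Submodule ℂ (MN N) :=
    { carrier := {M | ∃ y ∈ spE A (der 𝔮 : Set (Module.End ℚ A.H1)),
        ∃ y' ∈ spE A (der 𝔮 : Set (Module.End ℚ A.H1)), ∃ m m' : MN N,
          (∀ x, y (φ x) = φ (m *ᵥ x)) ∧ (∀ x, y' (φ x) = φ (m' *ᵥ x)) ∧
            M = m + Complex.I • m' ∧ cR A y + Complex.I • cR A y' ∈ J}
      zero_mem' := ⟨0, Submodule.zero_mem _, 0, Submodule.zero_mem _, 0, 0, fun x => by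
          rw [LinearMap.zero_apply, Matrix.zero_mulVec, map_zero], fun x => by
          rw [LinearMap.zero_apply, Matrix.zero_mulVec, map_zero], by
          rw [smul_zero, add_zero], by
          rw [map_zero, smul_zero, add_zero]
          exact J.zero_mem⟩
      add_mem' := by
        rintro _ _ ⟨a, ha, a', ha', m, m', h1, h2, rfl, h3⟩ ⟨b, hb, b', hb', n, n', k1, k2, rfl, k3⟩
        refine ⟨a + b, Submodule.add_mem _ ha hb, a' + b', Submodule.add_mem _ ha' hb', m + n,
          m' + n', fun x => ?_, fun x => ?_, ?_, ?_⟩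
        · rw [LinearMap.add_apply, Matrix.add_mulVec, map_add, h1, k1]
        · rw [LinearMap.add_apply, Matrix.add_mulVec, map_add, h2, k2]
        · rw [smul_add]
          abel
        · have e : cR A (a + b) + Complex.I • cR A (a' + b') =
              (cR A a + Complex.I • cR A a') + (cR A b + Complex.I • cR A b') := by
            rw [map_add, map_add, smul_add]
            abel
          rw [e]
          exact J.add_mem h3 k3
      smul_mem' := by
        rintro c _ ⟨a, ha, a', ha', m, m', h1, h2, rfl, h3⟩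
        refine ⟨c.re • a - c.im • a', Submodule.sub_mem _ (Submodule.smul_mem _ _ ha)
          (Submodule.smul_mem _ _ ha'), c.re • a' + c.im • a, Submodule.add_mem _
          (Submodule.smul_mem _ _ ha') (Submodule.smul_mem _ _ ha), c.re • m - c.im • m',
          c.re • m' + c.im • m, fun x => ?_, fun x => ?_, ?_, ?_⟩
        · rw [LinearMap.sub_apply, LinearMap.smul_apply, LinearMap.smul_apply, h1, h2,
            Matrix.sub_mulVec, Matrix.smul_mulVec, Matrix.smul_mulVec, map_sub, map_smul, map_smul]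
        · rw [LinearMap.add_apply, LinearMap.smul_apply, LinearMap.smul_apply, h1, h2,
            Matrix.add_mulVec, Matrix.smul_mulVec, Matrix.smul_mulVec, map_add, map_smul, map_smul]
        · ext i j
          simp only [Matrix.smul_apply, Matrix.add_apply, Matrix.sub_apply, smul_eq_mul,
            Complex.real_smul]
          have k2 : c * (m i j + Complex.I * m' i j) =
              (c.re + c.im * Complex.I) * (m i j + Complex.I * m' i j) := by
            rw [Complex.re_add_im c]
          rw [k2]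
          linear_combination (c.im * m' i j) * Complex.I_mul_I
        · have e : cR A (c.re • a - c.im • a') + Complex.I • cR A (c.re • a' + c.im • a) =
              c • (cR A a + Complex.I • cR A a') := by
            ext i j
            simp only [map_sub, map_add, map_smul, Matrix.smul_apply, Matrix.add_apply,
              Matrix.sub_apply, smul_eq_mul, Complex.real_smul]
            have k2 : c * (cR A a i j + Complex.I * cR A a' i j) =
                (c.re + c.im * Complex.I) * (cR A a i j + Complex.I * cR A a' i j) := by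
              rw [Complex.re_add_im c]
            rw [k2]
            linear_combination -(c.im * cR A a' i j) * Complex.I_mul_I
          rw [e]
          exact J.smul_mem c h3 }
  have hrn : ∀ {y : Module.End ℝ (Fin g → ℂ)} {m : MN N},
      y ∈ spE A (der 𝔮 : Set (Module.End ℚ A.H1)) → (∀ x, y (φ x) = φ (m *ᵥ x)) →
        m ∈ rN A (der 𝔮) φ := fun hy hm => ⟨_, hy, hm⟩
  have htr : ∀ M ∈ K, M.trace = 0 := by
    rintro _ ⟨y, hy, y', hy', m, m', h1, h2, rfl, -⟩
    rw [Matrix.trace_add, Matrix.trace_smul, trace_zero hr (hrn hy h1),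
      trace_zero hr (hrn hy' h2), smul_zero, add_zero]
  have hreal : ∀ a ∈ rN A (der 𝔮) φ, ∀ M ∈ K, a * M - M * a ∈ K := by
    rintro a ⟨ya, hya, ha⟩ _ ⟨y, hy, y', hy', m, m', h1, h2, rfl, h3⟩
    refine ⟨ya * y - y * ya, der_br hq ya hya y hy, ya * y' - y' * ya, der_br hq ya hya y' hy',
      a * m - m * a, a * m' - m' * a, fun x => ?_, fun x => ?_, ?_, ?_⟩
    · rw [LinearMap.sub_apply, Module.End.mul_apply, Module.End.mul_apply, h1, ha, ha, h1,
        ← map_sub, Matrix.mulVec_mulVec, Matrix.mulVec_mulVec, ← Matrix.sub_mulVec]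
    · rw [LinearMap.sub_apply, Module.End.mul_apply, Module.End.mul_apply, h2, ha, ha, h2,
        ← map_sub, Matrix.mulVec_mulVec, Matrix.mulVec_mulVec, ← Matrix.sub_mulVec]
    · simp only [mul_add, add_mul, mul_smul_comm, smul_mul_assoc, smul_sub]
      abel
    · have e : cR A (ya * y - y * ya) + Complex.I • cR A (ya * y' - y' * ya) =
          cR A ya * (cR A y + Complex.I • cR A y') - (cR A y + Complex.I • cR A y') * cR A ya := by
        rw [map_sub, map_sub, cR_mul, cR_mul, cR_mul, cR_mul]
        simp only [mul_add, add_mul, mul_smul_comm, smul_mul_assoc, smul_sub]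
        abel
      rw [e]
      exact hid _ (cR_mem hya) _ h3
  have hN : (N : ℂ) ≠ 0 := by exact_mod_cast w.pos.ne'
  have hidK : ∀ x : MN N, ∀ M ∈ K, x * M - M * x ∈ K := by
    intro x M hM
    have h0 : (x - (x.trace / N) • (1 : MN N)).trace = 0 := by
      rw [Matrix.trace_sub, Matrix.trace_smul, Matrix.trace_one, Fintype.card_fin, smul_eq_mul,
        div_mul_cancel₀ _ hN, sub_self]
    obtain ⟨a, b, ha, hat, hb, hbt, e⟩ := sks_dec w.isSg h0
    have ha' := full_mem N749.BGSU.main w.isSg hmx hB ha hat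
    have hb' := full_mem N749.BGSU.main w.isSg hmx hB hb hbt
    have e1 : x = a + Complex.I • b + (x.trace / N) • (1 : MN N) := by
      rw [← e, sub_add_cancel]
    have e2 : x * M - M * x = (a * M - M * a) + Complex.I • (b * M - M * b) := by
      rw [e1]
      generalize x.trace / N = t
      simp only [mul_add, add_mul, mul_smul_comm, smul_mul_assoc, smul_sub, one_mul, mul_one]
      abel
    rw [e2]
    exact K.add_mem (hreal a ha' M hM) (K.smul_mem _ (hreal b hb' M hM))
  by_cases hK : ∃ M ∈ K, M ≠ 0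
  · right
    obtain ⟨M, hM, hM0⟩ := hK
    intro m hm
    obtain ⟨y, hy, y', hy', m1, m2, h1, h2, h3, h4⟩ :=
      sl_simple htr hidK hM hM0 m (trace_zero hr hm)
    have k1 : (m1 - m) + Complex.I • m2 = 0 := by
      rw [sub_add_eq_add_sub, ← h3, sub_self]
    obtain ⟨k2, k3⟩ := sks_zero w.isSg (hr.sk _ (Submodule.sub_mem _ (hrn hy h1) hm))
      (hr.sk _ (hrn hy' h2)) k1
    refine ⟨_, h4, fun x => ?_⟩
    rw [hact h1 h2, k3, Matrix.zero_mulVec, map_zero, vec_zero, smul_zero, add_zero,
      sub_eq_zero.1 k2]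
  · left
    push Not at hK
    intro Y hY x
    obtain ⟨y, hy, y', hy', hYe⟩ := spM_split (hJ hY)
    rw [hYe] at hY ⊢
    obtain ⟨m, hm⟩ := mat_spE h w (der_spE hq hy)
    obtain ⟨m', hm'⟩ := mat_spE h w (der_spE hq hy')
    have h1 := hK _ (show m + Complex.I • m' ∈ K from
      ⟨y, hy, y', hy', m, m', hm, hm', rfl, hY⟩)
    obtain ⟨k2, k3⟩ := sks_zero w.isSg (hr.sk _ (hrn hy hm)) (hr.sk _ (hrn hy' hm')) h1
    rw [hact hm hm', k2, k3, Matrix.zero_mulVec, map_zero, vec_zero, smul_zero, add_zero]

end Pool.Agent.Run7.h2.UO
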