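import Pool.Agent.Run7.h2.UO.U3

set_option autoImplicit false
set_option linter.unusedSectionVars false

/-!
# A unitary place and a spin part
-/

open Module Function Matrix

noncomputable section

namespace Pool.Agent.Run7.h2.UO

open Pool.Agent.Y102 Pool.Agent.W516.DR Pool.Agent.H204R3.GP Pool.Agent.N208.AD
  Pool.Agent.N208.BT Pool.Agent.N441.BGSJ Pool.Agent.Y102.SP

variable {g : ℕ} {A : AbVar g} {N : ℕ} {sg : Fin N → ℝ}
  {z : Module.End ℚ A.H1} {al : ℝ} {φ : VN N →ₗ[ℝ] (Fin g → ℂ)}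

theorem kill_V0 (w : WN A z al N sg φ) {Y : Matrix (Fin (2 * g)) (Fin (2 * g)) ℂ}
    (hY : Y ∈ Run7.h2.OR.spM A.NA) (h0 : ∀ x, Y *ᵥ vec A (φ x) = 0) :
    ∀ x ∈ V0 A z al, Y *ᵥ vec A x = 0 := by
  obtain ⟨y, hy, y', hy', e⟩ := spM_split hY
  intro x hx
  have h1 : ∀ u, y (φ u) = 0 ∧ y' (φ u) = 0 := fun u => kill_iff (by rw [← e]; exact h0 u)
  have h2 := w.gen y (fun P hP => spE_comm hy hP) (fun u => (h1 u).1) x hx
  have h3 := w.gen y' (fun P hP => spE_comm hy' hP) (fun u => (h1 u).2) x hx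
  rw [e, Matrix.add_mulVec, Matrix.smul_mulVec, cR_vec, cR_vec, h2, h3, vec_zero, smul_zero,
    add_zero]

theorem V0_spE (hz : z ∈ A.EA) {y : Module.End ℝ (Fin g → ℂ)}
    (hy : y ∈ spE A (A.NA : Set (Module.End ℚ A.H1))) {x : Fin g → ℂ} (hx : x ∈ V0 A z al) :
    y x ∈ V0 A z al := by
  induction hy using Submodule.span_induction with
  | mem y hy =>
    obtain ⟨X, hX, rfl⟩ := hy
    exact V0_NA hz hX hx
  | zero => exact Submodule.zero_mem _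
  | add a b _ _ ha hb => exact Submodule.add_mem _ ha hb
  | smul c a _ ha => exact Submodule.smul_mem _ c ha

theorem V0_phi (h : HQ A z al) (w : WN A z al N sg φ) (x : VN N) : φ x ∈ V0 A z al := by
  have h1 : ∀ x, A.ext z (φ x) = al • φ (Complex.I • x) := fun x => by
    rw [w.mulI, smul_smul, mul_inv_cancel₀ h.ne, one_smul]
  change (A.ext z * A.ext z + (al ^ 2) • (1 : Module.End ℝ (Fin g → ℂ))) (φ x) = 0
  rw [LinearMap.add_apply, Module.End.mul_apply, LinearMap.smul_apply, Module.End.one_apply, h1,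
    map_smul, h1, smul_smul Complex.I Complex.I x, Complex.I_mul_I, neg_smul, one_smul, map_neg,
    smul_neg, smul_neg, smul_smul, ← pow_two, neg_add_cancel]

/-- the restriction of an operator to a real subspace -/
def rho (A : AbVar g) (S : Submodule ℝ (Fin g → ℂ)) :
    Matrix (Fin (2 * g)) (Fin (2 * g)) ℂ →ₗ[ℂ] (S → Fin (2 * g) → ℂ) where
  toFun Y x := Y *ᵥ vec A (x : Fin g → ℂ)
  map_add' Y Y' := by
    funext x
    rw [Pi.add_apply, Matrix.add_mulVec]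
  map_smul' c Y := by
    funext x
    rw [RingHom.id_apply, Pi.smul_apply, Matrix.smul_mulVec]

theorem rho_zero {S : Submodule ℝ (Fin g → ℂ)} {Y : Matrix (Fin (2 * g)) (Fin (2 * g)) ℂ} :
    rho A S Y = 0 ↔ ∀ x ∈ S, Y *ᵥ vec A x = 0 := by
  constructor
  · intro h x hx
    exact congrFun h ⟨x, hx⟩
  · intro h
    funext x
    exact h x x.2

variable {𝔮 : Submodule ℚ (Module.End ℚ A.H1)}

theorem spM_le (hq : A.Full 𝔮) : Run7.h2.OR.spM (der 𝔮) ≤ Run7.h2.OR.spM A.NA := by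
  refine Submodule.span_mono ?_
  rintro _ ⟨X, hX, rfl⟩
  exact ⟨X, hq.le (hq.der_le hX), rfl⟩

theorem spM_le' (hq : A.Full 𝔮) : Run7.h2.OR.spM (der 𝔮) ≤ Run7.h2.OR.spM (der A.NA) := by
  refine Submodule.span_mono ?_
  rintro _ ⟨X, hX, rfl⟩
  refine ⟨X, ?_, rfl⟩
  have h1 : der 𝔮 ≤ der A.NA := by
    unfold der
    exact Submodule.span_mono fun _ ⟨X, hX, Y, hY, e⟩ => ⟨X, hq.le hX, Y, hq.le hY, e⟩
  exact h1 hX

theorem spM_der_br (hq : A.Full 𝔮) : ∀ Y ∈ Run7.h2.OR.spM (der 𝔮),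
    ∀ Z ∈ Run7.h2.OR.spM (der 𝔮), Y * Z - Z * Y ∈ Run7.h2.OR.spM (der 𝔮) := by
  intro Y hY Z hZ
  refine Run7.h2.OR.spM_br (fun X hX X' hX' => ?_) Y hY Z hZ
  rw [← Run7.h2.OR.toC_br]
  exact Submodule.subset_span ⟨_, Submodule.subset_span
    ⟨X, hq.der_le hX, X', hq.der_le hX', rfl⟩, rfl⟩

theorem V0_br (hz : z ∈ A.EA) {Y Z : Matrix (Fin (2 * g)) (Fin (2 * g)) ℂ}
    (hY : Y ∈ Run7.h2.OR.spM A.NA) (hZ : ∀ x ∈ V0 A z al, Z *ᵥ vec A x = 0) :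
    ∀ x ∈ V0 A z al, (Y * Z - Z * Y) *ᵥ vec A x = 0 := by
  intro x hx
  obtain ⟨y, hy, y', hy', e⟩ := spM_split hY
  rw [Matrix.sub_mulVec, ← Matrix.mulVec_mulVec, ← Matrix.mulVec_mulVec, hZ x hx,
    Matrix.mulVec_zero, zero_sub, e, Matrix.add_mulVec, Matrix.smul_mulVec, cR_vec, cR_vec,
    Matrix.mulVec_add, Matrix.mulVec_smul, hZ _ (V0_spE hz hy hx), hZ _ (V0_spE hz hy' hx),
    smul_zero, add_zero, neg_zero]

/-- The derived algebras of the full subalgebras agree at a place. -/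
theorem rho_eq (h : HQ A z al) (w : WN A z al N sg φ) (hmx : Mixed sg) (hq : A.Full 𝔮)
    (hB : Big sg (rN A (der 𝔮) φ)) :
    (Run7.h2.OR.spM (der 𝔮)).map (rho A (V0 A z al)) =
      (Run7.h2.OR.spM (der A.NA)).map (rho A (V0 A z al)) := by
  refine le_antisymm (Submodule.map_mono (spM_le' hq)) ?_
  rintro _ ⟨X, hX, rfl⟩
  obtain ⟨a, ha, b, hb, e⟩ := spM_split hX
  have hfull := Pool.Agent.N208.AM.full_NA (A := A)
  have hr := N755.BGRR.main g A z al h N sg φ w A.NA hfull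
  have key : ∀ a ∈ spE A (der A.NA : Set (Module.End ℚ A.H1)),
      ∃ a' ∈ spE A (der 𝔮 : Set (Module.End ℚ A.H1)), ∀ x, a (φ x) = a' (φ x) := by
    intro a ha
    obtain ⟨m, hm⟩ := mat_spE h w (der_spE hfull ha)
    have h1 : m ∈ rN A (der A.NA) φ := ⟨a, ha, hm⟩
    obtain ⟨a', ha', h2⟩ := full_mem N749.BGSU.main w.isSg hmx hB (hr.sk _ h1) (trace_zero hr h1)
    exact ⟨a', ha', fun x => by rw [hm, h2]⟩
  obtain ⟨a', ha', h1⟩ := key a ha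
  obtain ⟨b', hb', h2⟩ := key b hb
  refine ⟨cR A a' + Complex.I • cR A b', Submodule.add_mem _ (cR_mem ha')
    (Submodule.smul_mem _ _ (cR_mem hb')), ?_⟩
  rw [← sub_eq_zero, ← map_sub, rho_zero]
  refine kill_V0 w (Submodule.sub_mem _ (spM_le hq (Submodule.add_mem _ (cR_mem ha')
    (Submodule.smul_mem _ _ (cR_mem hb')))) (spM_le hfull hX)) fun x => ?_
  rw [e, Matrix.sub_mulVec, Matrix.add_mulVec, Matrix.add_mulVec, Matrix.smul_mulVec,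
    Matrix.smul_mulVec, cR_vec, cR_vec, cR_vec, cR_vec, h1, h2, sub_self]

/-! ### The spin part -/

variable {I : Type} [Fintype I] [DecidableEq I] {d r : I → ℕ}
  {E : ∀ σ, Fin (r σ) → Matrix (Fin (d σ)) (Fin (d σ)) ℂ}
  {P : ∀ σ, Matrix (Fin (2 * g)) (Fin (d σ)) ℂ} {Q : ∀ σ, Matrix (Fin (d σ)) (Fin (2 * g)) ℂ}

theorem cM_br (hP : Run7.h2.OR.Parts A E P Q) {Y Z : Matrix (Fin (2 * g)) (Fin (2 * g)) ℂ}
    (hY : Y ∈ Run7.h2.OR.spM A.NA) (hZ : Z ∈ Run7.h2.OR.spM A.NA) :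
    Run7.h2.OR.cM P Q (Y * Z - Z * Y) = Run7.h2.OR.cM P Q Y * Run7.h2.OR.cM P Q Z -
      Run7.h2.OR.cM P Q Z * Run7.h2.OR.cM P Q Y := by
  rw [map_sub, Run7.h2.OR.cM_mul hP.proj (hP.st' hY), Run7.h2.OR.cM_mul hP.proj (hP.st' hZ)]

/-- **A unitary place and a spin part are not linked**, if the dimensions are different. -/
theorem pair_spin (h : HQ A z al) (w : WN A z al N sg φ) (hmx : Mixed sg) (hq : A.Full 𝔮)
    (hB : Big sg (rN A (der 𝔮) φ)) (hP : Run7.h2.OR.Parts A E P Q) (σ : I)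
    (hdim : finrank ℂ ((Run7.h2.OR.spM (der A.NA)).map (rho A (V0 A z al))) ≠
      finrank ℂ (soE (N113.BT.enM (E σ)))) :
    ∀ m ∈ rN A (der 𝔮) φ, ∃ Y ∈ Run7.h2.OR.spM (der 𝔮), Run7.h2.OR.cM P Q Y σ = 0 ∧
      ∀ x, Y *ᵥ vec A (φ x) = vec A (φ (m *ᵥ x)) := by
  have hne : ∀ σ, Nonempty (Fin (d σ)) := fun σ => ⟨⟨0, hP.pos σ⟩⟩
  let f : Matrix (Fin (2 * g)) (Fin (2 * g)) ℂ →ₗ[ℂ] Module.End ℂ (Run7.h2.OR.UU d σ) :=
    LinearMap.proj σ ∘ₗ Run7.h2.OR.cM P Q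
  have hf : ∀ Y, f Y = Run7.h2.OR.cM P Q Y σ := fun Y => rfl
  have hfbr : ∀ Y ∈ Run7.h2.OR.spM (der 𝔮), ∀ Z ∈ Run7.h2.OR.spM (der 𝔮),
      f (Y * Z - Z * Y) = f Y * f Z - f Z * f Y := by
    intro Y hY Z hZ
    rw [hf, cM_br hP (spM_le hq hY) (spM_le hq hZ)]
    rfl
  let J : Submodule ℂ (Matrix (Fin (2 * g)) (Fin (2 * g)) ℂ) :=
    Run7.h2.OR.spM (der 𝔮) ⊓ LinearMap.ker f
  have hd := dich h w hmx hq hB J inf_le_left (by
    rintro Y hY Z ⟨hZ, hZ0⟩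
    refine ⟨spM_der_br hq Y hY Z hZ, ?_⟩
    change f (Y * Z - Z * Y) = 0
    change f Z = 0 at hZ0
    rw [hfbr Y hY Z hZ, hZ0, mul_zero, zero_mul, sub_zero])
  rcases hd with hd | hd
  swap
  · intro m hm
    obtain ⟨Y, ⟨hY, hY0⟩, h1⟩ := hd m hm
    exact ⟨Y, hY, hY0, h1⟩
  -- the ideal in the orthogonal Lie algebra
  let K : Submodule ℂ (Module.End ℂ (Run7.h2.OR.UU d σ)) :=
    (Run7.h2.OR.spM (der 𝔮) ⊓ LinearMap.ker (rho A (V0 A z al))).map f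
  have hK1 : K ≤ soE (N113.BT.enM (E σ)) := by
    rintro _ ⟨Y, ⟨hY, -⟩, rfl⟩
    exact Run7.h2.OR.mem_soP.1 (hP.cM_der hq.le Y hY) σ
  have hK2 : ∀ x ∈ soE (N113.BT.enM (E σ)), ∀ y ∈ K, x * y - y * x ∈ K := by
    rintro x hx _ ⟨Z, ⟨hZ, hZ0⟩, rfl⟩
    obtain ⟨Y, hY, h1, -⟩ := hP.cls hq σ hx
    have h1' : f Y = x := h1
    refine ⟨Y * Z - Z * Y, ⟨spM_der_br hq Y hY Z hZ, ?_⟩, ?_⟩
    · exact rho_zero.2 (V0_br h.mem (spM_le hq hY) (rho_zero.1 hZ0))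
    · rw [hfbr Y hY Z hZ, h1']
  rcases Run7.h2.OR.fac_simple (hP.rank σ) (hP.CE' σ) K hK1 hK2 with hK | hK
  swap
  · rintro m ⟨y, hy, hm⟩
    have h1 : f (cR A y) ∈ soE (N113.BT.enM (E σ)) :=
      Run7.h2.OR.mem_soP.1 (hP.cM_der hq.le _ (cR_mem hy)) σ
    rw [← hK] at h1
    obtain ⟨Z, ⟨hZ, hZ0⟩, h2⟩ := h1
    refine ⟨cR A y - Z, Submodule.sub_mem _ (cR_mem hy) hZ, ?_, fun x => ?_⟩
    · rw [← hf, map_sub, h2, sub_self]
    · rw [Matrix.sub_mulVec, rho_zero.1 hZ0 _ (V0_phi h w x), sub_zero, cR_vec, hm]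
  · exfalso
    apply hdim
    rw [← rho_eq h w hmx hq hB]
    have e1 : (Run7.h2.OR.spM (der 𝔮)).map f = soE (N113.BT.enM (E σ)) := by
      refine le_antisymm ?_ ?_
      · rintro _ ⟨Y, hY, rfl⟩
        exact Run7.h2.OR.mem_soP.1 (hP.cM_der hq.le Y hY) σ
      · intro x hx
        obtain ⟨Y, hY, h1, -⟩ := hP.cls hq σ hx
        exact ⟨Y, hY, h1⟩
    rw [← e1, ← LinearMap.range_domRestrict, ← LinearMap.range_domRestrict]
    have k1 := LinearMap.finrank_range_add_finrank_ker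
      ((rho A (V0 A z al)).domRestrict (Run7.h2.OR.spM (der 𝔮)))
    have k2 := LinearMap.finrank_range_add_finrank_ker (f.domRestrict (Run7.h2.OR.spM (der 𝔮)))
    have k3 : LinearMap.ker ((rho A (V0 A z al)).domRestrict (Run7.h2.OR.spM (der 𝔮))) =
        LinearMap.ker (f.domRestrict (Run7.h2.OR.spM (der 𝔮))) := by
      ext Y
      rw [LinearMap.mem_ker, LinearMap.mem_ker, LinearMap.domRestrict_apply,
        LinearMap.domRestrict_apply]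
      constructor
      · intro h0
        have h1 : f (Y : Matrix (Fin (2 * g)) (Fin (2 * g)) ℂ) ∈ K := ⟨Y, ⟨Y.2, h0⟩, rfl⟩
        rw [hK] at h1
        exact (Submodule.mem_bot ℂ).1 h1
      · intro h0
        exact rho_zero.2 (kill_V0 w (spM_le hq Y.2) (hd Y ⟨Y.2, h0⟩))
    rw [k3] at k1
    exact Nat.add_right_cancel (k1.trans k2.symm)

end Pool.Agent.Run7.h2.UO
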