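import Pool.Agent.Run7.h2.UO.U4

set_option autoImplicit false
set_option linter.unusedSectionVars false

/-!
# Unitary places and spin parts
-/

open Module Function Matrix

noncomputable section

namespace Pool.Agent.Run7.h2.UO

open Pool.Agent.Y102 Pool.Agent.W516.DR Pool.Agent.H204R3.GP Pool.Agent.N208.AD
  Pool.Agent.N208.BT Pool.Agent.N441.BGSJ Pool.Agent.Y102.SP

variable {g : ℕ} {A : AbVar g} {ι : Type} {z : ι → Module.End ℚ A.H1} {al : ι → ℝ}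
  {I : Type} [Fintype I] [DecidableEq I] {d r : I → ℕ}
  {E : ∀ σ, Fin (r σ) → Matrix (Fin (d σ)) (Fin (d σ)) ℂ}
  {P : ∀ σ, Matrix (Fin (2 * g)) (Fin (d σ)) ℂ} {Q : ∀ σ, Matrix (Fin (d σ)) (Fin (2 * g)) ℂ}
  {𝔮 : Submodule ℚ (Module.End ℚ A.H1)}

/-- the operator vanishes at a place, or on a spin part -/
def Con (A : AbVar g) (z : ι → Module.End ℚ A.H1) (al : ι → ℝ)
    (P : ∀ σ, Matrix (Fin (2 * g)) (Fin (d σ)) ℂ) (Q : ∀ σ, Matrix (Fin (d σ)) (Fin (2 * g)) ℂ)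
    (Y : Matrix (Fin (2 * g)) (Fin (2 * g)) ℂ) : ι ⊕ I → Prop
  | Sum.inl i => ∀ x ∈ V0 A (z i) (al i), Y *ᵥ vec A x = 0
  | Sum.inr σ => Run7.h2.OR.cM P Q Y σ = 0

theorem Con.zero (c : ι ⊕ I) : Con A z al P Q 0 c := by
  rcases c with i | σ
  · intro x _
    rw [Matrix.zero_mulVec]
  · change Run7.h2.OR.cM P Q 0 σ = 0
    rw [map_zero]
    rfl

theorem Con.add {Y Z : Matrix (Fin (2 * g)) (Fin (2 * g)) ℂ} {c : ι ⊕ I}
    (h : Con A z al P Q Y c) (h' : Con A z al P Q Z c) : Con A z al P Q (Y + Z) c := by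
  rcases c with i | σ
  · intro x hx
    rw [Matrix.add_mulVec, h x hx, h' x hx, add_zero]
  · change Run7.h2.OR.cM P Q (Y + Z) σ = 0
    have e : Run7.h2.OR.cM P Q Y σ = 0 := h
    have e' : Run7.h2.OR.cM P Q Z σ = 0 := h'
    rw [map_add, Pi.add_apply, e, e', add_zero]

theorem Con.smul {Y : Matrix (Fin (2 * g)) (Fin (2 * g)) ℂ} {c : ι ⊕ I}
    (t : ℂ) (h : Con A z al P Q Y c) : Con A z al P Q (t • Y) c := by
  rcases c with i | σ
  · intro x hx
    rw [Matrix.smul_mulVec, h x hx, smul_zero]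
  · change Run7.h2.OR.cM P Q (t • Y) σ = 0
    have e : Run7.h2.OR.cM P Q Y σ = 0 := h
    rw [map_smul, Pi.smul_apply, e, smul_zero]

theorem Con.br (H : _root_.Run7.h2.OB.HGI A z al) (hP : Run7.h2.OR.Parts A E P Q)
    {Y Z : Matrix (Fin (2 * g)) (Fin (2 * g)) ℂ} (hY : Y ∈ Run7.h2.OR.spM A.NA)
    (hZ : Z ∈ Run7.h2.OR.spM A.NA) {c : ι ⊕ I} (h : Con A z al P Q Z c) :
    Con A z al P Q (Y * Z - Z * Y) c := by
  rcases c with i | σ
  · exact V0_br (H.hq i).mem hY h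
  · change Run7.h2.OR.cM P Q (Y * Z - Z * Y) σ = 0
    have e : Run7.h2.OR.cM P Q Z σ = 0 := h
    rw [cM_br hP hY hZ, Pi.sub_apply, Pi.mul_apply, Pi.mul_apply, e, mul_zero, zero_mul, sub_zero]

theorem Con.br' (H : _root_.Run7.h2.OB.HGI A z al) (hP : Run7.h2.OR.Parts A E P Q)
    {Y Z : Matrix (Fin (2 * g)) (Fin (2 * g)) ℂ} (hY : Y ∈ Run7.h2.OR.spM A.NA)
    (hZ : Z ∈ Run7.h2.OR.spM A.NA) {c : ι ⊕ I} (h : Con A z al P Q Y c) :
    Con A z al P Q (Y * Z - Z * Y) c := by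
  have h1 := (Con.br H hP hZ hY h).smul (-1)
  rwa [neg_one_smul, neg_sub] at h1

/-- A prescribed element at one place, zero at the other places and on the spin parts. -/
theorem one_all [DecidableEq ι] (H : _root_.Run7.h2.OB.HGI A z al) (hP : Run7.h2.OR.Parts A E P Q)
    (N : ι → ℕ) (sg : ∀ a, Fin (N a) → ℝ) (φ : ∀ a, VN (N a) →ₗ[ℝ] (Fin g → ℂ))
    (w : ∀ a : ι, WN A (z a) (al a) (N a) (sg a) (φ a))
    (hdim : ∀ i σ, finrank ℂ ((Run7.h2.OR.spM (der A.NA)).map (rho A (V0 A (z i) (al i)))) ≠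
      finrank ℂ (soE (N113.BT.enM (E σ))))
    (hq : A.Full 𝔮) (i : ι) (T : Finset (ι ⊕ I)) (hT : Sum.inl i ∉ T) :
    ∀ m ∈ rN A (der 𝔮) (φ i), ∃ Y ∈ Run7.h2.OR.spM (der 𝔮), (∀ c ∈ T, Con A z al P Q Y c) ∧
      ∀ x, Y *ᵥ vec A (φ i x) = vec A (φ i (m *ᵥ x)) := by
  have hr := N755.BGRR.main g A (z i) (al i) (H.hq i) (N i) (sg i) (φ i) (w i) 𝔮 hq
  have hB := H.big i (N i) (sg i) (φ i) (w i)
  -- one constraint
  have hone : ∀ c : ι ⊕ I, c ≠ Sum.inl i → ∀ m ∈ rN A (der 𝔮) (φ i),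
      ∃ Y ∈ Run7.h2.OR.spM (der 𝔮), Con A z al P Q Y c ∧
        ∀ x, Y *ᵥ vec A (φ i x) = vec A (φ i (m *ᵥ x)) := by
    rintro (j | σ) hc m hm
    · have hne : i ≠ j := fun h0 => hc (by rw [h0])
      obtain ⟨y, hy, e, k⟩ := _root_.Run7.h2.OB.pair H hne (w i) (w j) hq (hr.sk m hm)
        (trace_zero hr hm)
      refine ⟨cR A y, cR_mem hy, ?_, fun x => by rw [cR_vec, e]⟩
      refine kill_V0 (w j) (spM_le hq (cR_mem hy)) fun x => ?_
      rw [cR_vec, k, Matrix.zero_mulVec, map_zero, vec_zero]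
    · exact pair_spin (H.hq i) (w i) hB.1 hq (hB.2 𝔮 hq) hP σ (hdim i σ) m hm
  induction T using Finset.induction_on with
  | empty =>
    rintro m ⟨y, hy, hm⟩
    exact ⟨cR A y, cR_mem hy, fun c hc => absurd hc (Finset.notMem_empty c), fun x => by
      rw [cR_vec, hm]⟩
  | insert c T hcT ih =>
    have hc : c ≠ Sum.inl i := fun h0 => hT (by
      rw [h0]
      exact Finset.mem_insert_self _ _)
    have ih' := ih fun h0 => hT (Finset.mem_insert_of_mem h0)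
    intro m hm
    have h1 := hr.perf hm
    clear hm
    induction h1 using Submodule.span_induction with
    | mem m hm =>
      obtain ⟨X, hX, X', hX', rfl⟩ := hm
      obtain ⟨Y1, hY1, c1, e1⟩ := ih' X hX
      obtain ⟨Y2, hY2, c2, e2⟩ := hone c hc X' hX'
      refine ⟨Y1 * Y2 - Y2 * Y1, spM_der_br hq Y1 hY1 Y2 hY2, fun b hb => ?_, fun x => ?_⟩
      · rcases Finset.mem_insert.mp hb with rfl | hb
        · exact Con.br H hP (spM_le hq hY1) (spM_le hq hY2) c2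
        · exact Con.br' H hP (spM_le hq hY1) (spM_le hq hY2) (c1 b hb)
      · rw [Matrix.sub_mulVec, ← Matrix.mulVec_mulVec, ← Matrix.mulVec_mulVec, e1, e2, e1, e2,
          Matrix.mulVec_mulVec, Matrix.mulVec_mulVec, Matrix.sub_mulVec, map_sub]
        funext j
        rw [Pi.sub_apply]
        change ((A.lam.repr _ j : ℝ) : ℂ) - ((A.lam.repr _ j : ℝ) : ℂ) =
          ((A.lam.repr _ j : ℝ) : ℂ)
        rw [map_sub, Finsupp.sub_apply, Complex.ofReal_sub]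
    | zero =>
      exact ⟨0, Submodule.zero_mem _, fun b _ => Con.zero b, fun x => by
        rw [Matrix.zero_mulVec, Matrix.zero_mulVec, map_zero, vec_zero]⟩
    | add a b _ _ ha hb =>
      obtain ⟨ya, hya, ca, ea⟩ := ha
      obtain ⟨yb, hyb, cb, eb⟩ := hb
      refine ⟨ya + yb, Submodule.add_mem _ hya hyb, fun t ht => (ca t ht).add (cb t ht),
        fun x => ?_⟩
      rw [Matrix.add_mulVec, Matrix.add_mulVec, map_add, ea, eb]
      funext j
      rw [Pi.add_apply]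
      change ((A.lam.repr _ j : ℝ) : ℂ) + ((A.lam.repr _ j : ℝ) : ℂ) =
        ((A.lam.repr _ j : ℝ) : ℂ)
      rw [map_add, Finsupp.add_apply, Complex.ofReal_add]
    | smul t a _ ha =>
      obtain ⟨ya, hya, ca, ea⟩ := ha
      refine ⟨(t : ℂ) • ya, Submodule.smul_mem _ _ hya, fun b hb => (ca b hb).smul _,
        fun x => ?_⟩
      rw [Matrix.smul_mulVec, ea, Matrix.smul_mulVec, map_smul]
      funext j
      rw [Pi.smul_apply]
      change (t : ℂ) * ((A.lam.repr _ j : ℝ) : ℂ) = ((A.lam.repr _ j : ℝ) : ℂ)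
      rw [map_smul, Finsupp.smul_apply, smul_eq_mul, Complex.ofReal_mul]

/-- **All full subalgebras have the same derived algebra** at the places and on the spin parts. -/
theorem joint [Fintype ι] [DecidableEq ι] (H : _root_.Run7.h2.OB.HGI A z al)
    (hP : Run7.h2.OR.Parts A E P Q)
    (hdim : ∀ i σ, finrank ℂ ((Run7.h2.OR.spM (der A.NA)).map (rho A (V0 A (z i) (al i)))) ≠
      finrank ℂ (soE (N113.BT.enM (E σ))))
    (hq : A.Full 𝔮) {X : Module.End ℚ A.H1} (hX : X ∈ der A.NA) :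
    ∃ Y ∈ Run7.h2.OR.spM (der 𝔮), (∑ σ, P σ * Q σ) * Y102.toC X = (∑ σ, P σ * Q σ) * Y ∧
      ∀ i, ∀ x ∈ V0 A (z i) (al i), Y102.toC X *ᵥ vec A x = Y *ᵥ vec A x := by
  have hfull := Pool.Agent.N208.AM.full_NA (A := A)
  have h1 : ∀ a : ι, ∃ (N : ℕ) (sg : Fin N → ℝ) (φ : VN N →ₗ[ℝ] (Fin g → ℂ)),
      WN A (z a) (al a) N sg φ := by
    intro a
    obtain ⟨W, hW⟩ := N755.BGWA.main g A (z a) (al a) (H.hq a)
    exact N455.BGWB.main g A (z a) (al a) (H.hq a) W hW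
  choose N sg φ w using h1
  -- the spin parts
  obtain ⟨y2, hy2, e2⟩ := hP.pin.der 𝔮 hq X hX
  rw [← Run7.h2.OR.spM_map] at hy2
  obtain ⟨Y2, hY2, rfl⟩ := hy2
  have e3 : (∑ σ, P σ * Q σ) * Y102.toC X = (∑ σ, P σ * Q σ) * Y2 := by
    apply (matE (2 * g)).injective
    rw [map_mul, map_mul, matE_toC]
    exact e2
  obtain ⟨y, hy, y', hy', e4⟩ := spM_split hY2
  -- the elements at the places
  have h2 : ∀ a : ι, ∃ Z ∈ Run7.h2.OR.spM (der 𝔮),
      (∀ c ∈ (Finset.univ : Finset (ι ⊕ I)).erase (Sum.inl a), Con A z al P Q Z c) ∧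
        ∀ x, Z *ᵥ vec A (φ a x) = (Y102.toC X - Y2) *ᵥ vec A (φ a x) := by
    intro a
    have hr := N755.BGRR.main g A (z a) (al a) (H.hq a) (N a) (sg a) (φ a) (w a) 𝔮 hq
    have hr0 := N755.BGRR.main g A (z a) (al a) (H.hq a) (N a) (sg a) (φ a) (w a) A.NA hfull
    have hB := H.big a (N a) (sg a) (φ a) (w a)
    have hone := one_all H hP N sg φ w hdim hq a
      ((Finset.univ : Finset (ι ⊕ I)).erase (Sum.inl a)) (Finset.notMem_erase _ _)
    have hXs : A.ext X ∈ spE A (der A.NA : Set (Module.End ℚ A.H1)) :=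
      mem_spE (S := (der A.NA : Set (Module.End ℚ A.H1))) hX
    obtain ⟨m, hm⟩ := mat_spE (H.hq a) (w a) (der_spE hfull hXs)
    have hm0 : m ∈ rN A (der A.NA) (φ a) := ⟨_, hXs, hm⟩
    have hm1 : m ∈ rN A (der 𝔮) (φ a) := full_mem N749.BGSU.main (w a).isSg hB.1 (hB.2 𝔮 hq)
      (hr0.sk _ hm0) (trace_zero hr0 hm0)
    obtain ⟨m1, k1⟩ := mat_spE (H.hq a) (w a) (der_spE hq hy)
    obtain ⟨m2, k2⟩ := mat_spE (H.hq a) (w a) (der_spE hq hy')
    obtain ⟨Z0, hZ0, c0, f0⟩ := hone m hm1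
    obtain ⟨Z1, hZ1, c1, f1⟩ := hone m1 ⟨y, hy, k1⟩
    obtain ⟨Z2, hZ2, c2, f2⟩ := hone m2 ⟨y', hy', k2⟩
    refine ⟨Z0 + (-1 : ℂ) • (Z1 + Complex.I • Z2), Submodule.add_mem _ hZ0
      (Submodule.smul_mem _ _ (Submodule.add_mem _ hZ1 (Submodule.smul_mem _ _ hZ2))),
      fun c hc => (c0 c hc).add (((c1 c hc).add ((c2 c hc).smul _)).smul _), fun x => ?_⟩
    rw [Matrix.add_mulVec, Matrix.smul_mulVec, Matrix.add_mulVec, Matrix.smul_mulVec, f0, f1, f2,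
      Matrix.sub_mulVec, e4, Matrix.add_mulVec, Matrix.smul_mulVec, cR_vec, cR_vec, k1, k2,
      ← cR_ext, cR_vec, hm, neg_one_smul, sub_eq_add_neg]
  choose Z hZ hc he using h2
  have hcon : ∀ (a : ι) (c : ι ⊕ I), c ≠ Sum.inl a → Con A z al P Q (Z a) c := fun a c hne =>
    hc a c (Finset.mem_erase.2 ⟨hne, Finset.mem_univ _⟩)
  have hsum : ∑ a, Z a ∈ Run7.h2.OR.spM (der 𝔮) := Submodule.sum_mem _ fun a _ => hZ a
  have hYm : Y2 + ∑ a, Z a ∈ Run7.h2.OR.spM (der 𝔮) := Submodule.add_mem _ hY2 hsum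
  refine ⟨Y2 + ∑ a, Z a, hYm, ?_, fun i => ?_⟩
  · have h5 : ∀ a, (∑ σ, P σ * Q σ) * Z a = 0 := by
      intro a
      rw [← Run7.h2.OR.iM_cmp hP.proj hP.orth (hP.st' (spM_le hq (hZ a)))]
      have h6 : (fun σ => Matrix.toLinAlgEquiv' (Q σ * Z a * P σ)) =
          (0 : Run7.h2.OR.PE (Run7.h2.OR.UU d)) := by
        funext σ
        exact hcon a (Sum.inr σ) (by simp)
      exact (congrArg _ h6).trans (map_zero _)
    rw [e3, mul_add, Finset.mul_sum, Finset.sum_eq_zero fun a _ => h5 a, add_zero]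
  · have h7 : ∀ x ∈ V0 A (z i) (al i), (Y102.toC X - (Y2 + ∑ a, Z a)) *ᵥ vec A x = 0 := by
      refine kill_V0 (w i) (Submodule.sub_mem _ (spM_le hfull (Submodule.subset_span ⟨X, hX, rfl⟩))
        (spM_le hq hYm)) fun x => ?_
      rw [← sub_sub, Matrix.sub_mulVec, Matrix.sum_mulVec, Finset.sum_eq_single i, he, sub_self]
      · intro b _ hb
        exact hcon b (Sum.inl i) (fun h0 => hb (Sum.inl_injective h0).symm) _
          (V0_phi (H.hq i) (w i) x)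
      · intro h
        exact absurd (Finset.mem_univ _) h
    intro x hx
    have h8 := h7 x hx
    rw [Matrix.sub_mulVec, sub_eq_zero] at h8
    exact h8

end Pool.Agent.Run7.h2.UO
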