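import Pool.Agent.Run7.h2.UO.U5

set_option autoImplicit false
set_option linter.unusedSectionVars false
set_option linter.unusedVariables false

/-!
# Motives whose Mumford-Tate domain is the domain of unitary places and spin parts

The proofs are those of `Pool.Agent.N113.BT` and `Pool.Agent.N208.CT`.
-/

open Module Function TensorProduct Matrix

noncomputable section

namespace Pool.Agent.Run7.h2.UO

open Pool.Agent.Y102 Pool.Agent.W516.DR Pool.Agent.H204R3.GP Pool.Agent.W516.KC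
  Pool.Agent.H204R3.SP Pool.Agent.TH119.MX Pool.Agent.R917 Pool.Agent.N208.AM Pool.Agent.N113.BT

variable {g : ℕ} {A : AbVar g} {s n : ℕ} {r : Fin s → ℕ} {B : Fin n → Ten A r} {w : Fin s → ℤ}
  {P : Matrix (Fin n) (Fin n) ℂ} {Wt : Matrix (Fin n) (Fin n) ℚ}
  {H : Set (Matrix (Fin n) (Fin n) ℂ)} {N : Matrix (Fin n) (Fin n) ℝ}
  {e : Module.End ℂ (ℂ ⊗[ℚ] A.H1)} {U : Set (Fin g → ℂ)}

/-- the complex operator kills the vector -/
def Kil (A : AbVar g) (x : Module.End ℂ (ℂ ⊗[ℚ] A.H1)) (u : Fin g → ℂ) : Prop :=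
  (matE (2 * g)).symm x *ᵥ vec A u = 0

theorem Kil.add {x y : Module.End ℂ (ℂ ⊗[ℚ] A.H1)} {u : Fin g → ℂ} (hx : Kil A x u)
    (hy : Kil A y u) : Kil A (x + y) u := by
  unfold Kil at *
  rw [map_add, Matrix.add_mulVec, hx, hy, add_zero]

theorem Kil.smul {x : Module.End ℂ (ℂ ⊗[ℚ] A.H1)} {u : Fin g → ℂ} (c : ℂ) (hx : Kil A x u) :
    Kil A (c • x) u := by
  unfold Kil at *
  rw [map_smul, Matrix.smul_mulVec, hx, smul_zero]

/-- A projector and a set of real vectors, such that all full subalgebras have the same derived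
algebra there. -/
structure Jt (A : AbVar g) (e : Module.End ℂ (ℂ ⊗[ℚ] A.H1)) (U : Set (Fin g → ℂ)) : Prop where
  comm : ∀ x ∈ cx A.NA, e * x = x * e
  stab : ∀ X ∈ A.NA, ∀ u ∈ U, A.ext X u ∈ U
  der : ∀ 𝔮 : Submodule ℚ (Module.End ℚ A.H1), A.Full 𝔮 → ∀ X ∈ Pool.Agent.Y102.der A.NA,
    ∃ y ∈ cx (Pool.Agent.Y102.der 𝔮), e * X.baseChange ℂ = e * y ∧
      ∀ u ∈ U, Kil A (X.baseChange ℂ - y) u

/-- The real matrices of the part which acts trivially. -/
def nJ (B : Fin n → Ten A r) (e : Module.End ℂ (ℂ ⊗[ℚ] A.H1)) (U : Set (Fin g → ℂ)) :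
    Submodule ℝ (Matrix (Fin n) (Fin n) ℝ) where
  carrier := {z | ∃ p ∈ pC B (der A.NA), (e * p.1 = 0 ∧ ∀ u ∈ U, Kil A p.1 u) ∧ z = reM p.2}
  zero_mem' := ⟨0, Submodule.zero_mem _, ⟨by rw [Prod.fst_zero, mul_zero], fun u _ => by
    unfold Kil
    rw [Prod.fst_zero, map_zero, Matrix.zero_mulVec]⟩, by
    ext i j; simp⟩
  add_mem' := by
    rintro _ _ ⟨p, hp, h1, rfl⟩ ⟨q, hq, h2, rfl⟩
    exact ⟨p + q, Submodule.add_mem _ hp hq, ⟨by rw [Prod.fst_add, mul_add, h1.1, h2.1, add_zero],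
      fun u hu => (h1.2 u hu).add (h2.2 u hu)⟩, by rw [Prod.snd_add, reM_add]⟩
  smul_mem' := by
    rintro c _ ⟨p, hp, h1, rfl⟩
    refine ⟨(c : ℂ) • p, Submodule.smul_mem _ _ hp, ⟨by
      rw [Prod.smul_fst, mul_smul_comm, h1.1, smul_zero], fun u hu => (h1.2 u hu).smul _⟩, ?_⟩
    rw [Prod.smul_snd, reM_smul, Complex.ofReal_re, Complex.ofReal_im, zero_smul, sub_zero]

theorem Kil_br {X : Module.End ℚ A.H1} {x : Module.End ℂ (ℂ ⊗[ℚ] A.H1)} {u : Fin g → ℂ}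
    (h1 : Kil A x u) (h2 : Kil A x (A.ext X u)) :
    Kil A (x * X.baseChange ℂ - X.baseChange ℂ * x) u := by
  unfold Kil at *
  have h3 : (matE (2 * g)).symm (X.baseChange ℂ) = toC X := by
    rw [← matE_toC]
    exact AlgEquiv.symm_apply_apply _ _
  rw [map_sub, map_mul, map_mul, h3, Matrix.sub_mulVec, ← Matrix.mulVec_mulVec,
    ← Matrix.mulVec_mulVec, h1, Matrix.mulVec_zero, sub_zero, ← cR_ext, cR_vec, h2]

/-- **The complex structure is in the Lie algebra of the group**, up to the centre. -/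
theorem N_mem3 (h : Mot w B P) (hW : WRel w B Wt) (hH : PtM P H) (hr : Jt A e U)
    (hN : RelR B AbVar.JJ N) {Nc Nd : Matrix (Fin n) (Fin n) ℝ}
    (hNc : Nc ∈ spR B (cenA A : Set (Module.End ℚ A.H1)))
    (hNd : Nd ∈ spR B (der A.NA : Set (Module.End ℚ A.H1))) (hNe : N = Nc + Nd)
    (hα : ∀ p ∈ pC B (der A.NA), e * p.1 = 0 → (∀ u ∈ U, Kil A p.1 u) →
      p.2 * cxm N = cxm N * p.2) :
    Nd ∈ spR B (dq B Wt H : Set (Module.End ℚ A.H1)) := by
  have hq := qM_full h hW hH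
  have hdN : dq B Wt H ≤ A.NA := fun Z hZ => (der_mem h hW hZ).1
  have hdd : dq B Wt H ≤ der A.NA := by
    unfold dq der
    exact Submodule.span_mono fun _ ⟨X, hX, Y, hY, e⟩ => ⟨X, hq.le hX, Y, hq.le hY, e⟩
  have hdb : ∀ X ∈ dq B Wt H, ∀ Y ∈ dq B Wt H, X * Y - Y * X ∈ dq B Wt H := fun X hX Y hY =>
    Submodule.subset_span ⟨X, hq.der_le hX, Y, hq.der_le hY, rfl⟩
  have hle : spR B (der A.NA : Set (Module.End ℚ A.H1)) ≤
      spR B (A.NA : Set (Module.End ℚ A.H1)) := spR_mono der_NA_le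
  have hnm : nJ B e U ≤ spR B (der A.NA : Set (Module.End ℚ A.H1)) := by
    rintro _ ⟨p, hp, -, rfl⟩
    exact (pC_re hp).1
  refine mem_of_sup (dat h hN hNc hNd hNe) (spR_mono hdd) (spR_br hdb) hnm ?_ ?_ ?_
  · rintro x hx z ⟨p, hp, h1, rfl⟩
    induction hx using Submodule.span_induction with
    | mem x hx =>
      obtain ⟨X, hX, M, hM, rfl⟩ := hx
      refine ⟨_, pC_br h hX hM hp, ⟨?_, fun u hu => ?_⟩, ?_⟩
      · change e * (p.1 * X.baseChange ℂ - X.baseChange ℂ * p.1) = 0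
        rw [mul_sub, ← mul_assoc, h1.1, zero_mul, ← mul_assoc, hr.comm _ (bc_mem (der_NA_le hX)),
          mul_assoc, h1.1, mul_zero, sub_zero]
      · exact Kil_br (h1.2 u hu) (h1.2 _ (hr.stab X (der_NA_le hX) u hu))
      · change _ = reM (cq M * p.2 - p.2 * cq M)
        rw [reM_sub, ← cxm_rq, reM_mul, reM_mul', RLie.br_apply]
    | zero => rw [LinearMap.map_zero₂]; exact Submodule.zero_mem _
    | add a b _ _ ha hb => rw [LinearMap.map_add₂]; exact Submodule.add_mem _ ha hb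
    | smul c a _ ha => rw [LinearMap.map_smul₂]; exact Submodule.smul_mem _ _ ha
  · intro z hz
    have h2 : RLie.br N z = 0 := by
      obtain ⟨p, hp, h1, rfl⟩ := hz
      have h3 := congrArg reM (hα p hp h1.1 h1.2)
      rw [reM_mul, reM_mul'] at h3
      rw [RLie.br_apply, h3, sub_self]
    rw [hNe, LinearMap.map_add₂, cenA_br h hNc (hle (hnm hz)), zero_add] at h2
    exact h2
  · rw [spR, Submodule.span_le]
    rintro _ ⟨X, hX, M, hM, rfl⟩
    obtain ⟨y, hy, h1⟩ := hr.der _ hq X hX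
    obtain ⟨y', hy'⟩ := exists_pC h hdN hy
    have h2 : ((X.baseChange ℂ : Module.End ℂ (ℂ ⊗[ℚ] A.H1)), cq M) ∈ pC B (der A.NA) :=
      Submodule.subset_span ⟨X, hX, M, hM, rfl⟩
    have h3 := Submodule.sub_mem _ h2 (pC_mono hdd hy')
    have h4 : rq M = reM y' + (rq M - reM y') := by abel
    change rq M ∈ _
    rw [h4]
    refine Submodule.add_mem_sup (pC_re hy').1 ⟨_, h3, ⟨?_, h1.2⟩, ?_⟩
    · change e * (X.baseChange ℂ - y) = 0
      rw [mul_sub, h1.1, sub_self]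
    · change _ = reM (cq M - y')
      rw [reM_sub, reM_cq]

/-- **Main theorem**, without a condition on the centre: the derived algebra of the Lie algebra of
the Hodge group is in the Lie algebra of the group. -/
theorem main_der3 (h : Mot w B P) (hW : WRel w B Wt) (hH : PtM P H) (hr : Jt A e U)
    (hN : RelR B AbVar.JJ N)
    (hα : ∀ p ∈ pC B (der A.NA), e * p.1 = 0 → (∀ u ∈ U, Kil A p.1 u) →
      p.2 * cxm N = cxm N * p.2) :
    ∃ L : Submodule ℚ (Matrix (Fin n) (Fin n) ℚ), (∀ x ∈ L, ∀ y ∈ L, x * y - y * x ∈ L) ∧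
      N ∈ Submodule.span ℝ {M | ∃ x ∈ L, M = rq x} ∧
      ∀ x ∈ L, ∀ y ∈ L, x * y - y * x ∈ LQ H := by
  obtain ⟨N', hN', t, X, M, h1, h2⟩ := exists_J h
  have h3 : N = N' := hN.uniq h.li hN'
  subst h3
  have h4 : N ∈ spR B (A.NA : Set (Module.End ℚ A.H1)) := by
    rw [h2]
    exact Submodule.sum_mem _ fun k _ => Submodule.smul_mem _ _ (mem_spR (h1 k).1 (h1 k).2)
  obtain ⟨Nc, hNc, Nd, hNd, hNe⟩ := exists_dec h h4
  have h5 := N_mem3 h hW hH hr hN hNc hNd hNe hα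
  refine ⟨cdM B Wt H, fun x hx y hy => ?_, ?_, fun x hx y hy => ?_⟩
  · obtain ⟨d, hd, hd'⟩ := cdM_br h hW hH hx hy
    exact ⟨0, (cenA A).zero_mem, d, hd, 0, _, Rel.zero, hd', (zero_add _).symm⟩
  · rw [hNe]
    refine Submodule.add_mem _ ?_ ?_
    · refine Submodule.span_mono ?_ hNc
      rintro _ ⟨Z, hZ, M, hM, rfl⟩
      exact ⟨M, ⟨Z, hZ, 0, (dq B Wt H).zero_mem, M, 0, hM, Rel.zero, (add_zero _).symm⟩, rfl⟩
    · refine Submodule.span_mono ?_ h5
      rintro _ ⟨d, hd, M, hM, rfl⟩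
      exact ⟨M, ⟨0, (cenA A).zero_mem, d, hd, 0, M, Rel.zero, hM, (zero_add _).symm⟩, rfl⟩
  · obtain ⟨d, hd, hd'⟩ := cdM_br h hW hH hx hy
    obtain ⟨-, M', h6, h7⟩ := der_mem h hW hd
    rw [hd'.uniq h.li h6]
    exact h7

/-- **Main theorem.** -/
theorem main_B3 (h : Mot w B P) (hW : WRel w B Wt) (hH : PtM P H) (hc : NoCentre B)
    (hr : Jt A e U) (hN : RelR B AbVar.JJ N)
    (hα : ∀ p ∈ pC B (der A.NA), e * p.1 = 0 → (∀ u ∈ U, Kil A p.1 u) →
      p.2 * cxm N = cxm N * p.2)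
    {z : ℂ} (hz : z ≠ 0) : NormedSpace.exp (KK Wt N z) ∈ H ∧
      HRel w B z (NormedSpace.exp (KK Wt N z)) := by
  obtain ⟨N', hN', t, X, M, h1, h2⟩ := exists_J h
  have h3 : N = N' := hN.uniq h.li hN'
  subst h3
  have h4 : N ∈ spR B (A.NA : Set (Module.End ℚ A.H1)) := by
    rw [h2]
    exact Submodule.sum_mem _ fun k _ => Submodule.smul_mem _ _ (mem_spR (h1 k).1 (h1 k).2)
  obtain ⟨Nc, hNc, Nd, hNd, hNe⟩ := exists_dec h h4
  have h5 := N_mem3 h hW hH hr hN hNc hNd hNe hα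
  have h6 : Nc = 0 := by
    clear hNe
    induction hNc using Submodule.span_induction with
    | mem x hx =>
      obtain ⟨Z, hZ, M, hM, rfl⟩ := hx
      have h7 : Rel B Z 0 := hc Z hZ.1 fun Y hY => by
        rw [hZ.2 Y hY, sub_self]
        exact Rel.zero
      rw [hM.uniq h.li h7, rq_zero]
    | zero => rfl
    | add a b _ _ ha hb => rw [ha, hb, add_zero]
    | smul c a _ ha => rw [ha, smul_zero]
  rw [h6, zero_add] at hNe
  rw [← hNe] at h5
  refine ⟨exp_mem hH.grp fun d => ?_, hrel_exp hW hN hz⟩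
  unfold KK
  exact ((Wt_mem h hW hH hc d).smul _).add ((stab_spR h hW h5 d).smul _)

/-- **Main theorem**, if the centre is rigid. -/
theorem main_CT3 (h : Mot w B P) (hW : WRel w B Wt) (hH : PtM P H) (hrig : Pool.Agent.N208.CT.Rigid A)
    (hr : Jt A e U) (hN : RelR B AbVar.JJ N)
    (hα : ∀ p ∈ pC B (der A.NA), e * p.1 = 0 → (∀ u ∈ U, Kil A p.1 u) →
      p.2 * cxm N = cxm N * p.2)
    {z : ℂ} (hz : z ≠ 0) : NormedSpace.exp (KK Wt N z) ∈ H ∧
      HRel w B z (NormedSpace.exp (KK Wt N z)) := by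
  obtain ⟨N', hN', t, X, M, h1, h2⟩ := exists_J h
  have h3 : N = N' := hN.uniq h.li hN'
  subst h3
  have h4 : N ∈ spR B (A.NA : Set (Module.End ℚ A.H1)) := by
    rw [h2]
    exact Submodule.sum_mem _ fun k _ => Submodule.smul_mem _ _ (mem_spR (h1 k).1 (h1 k).2)
  obtain ⟨Nc, hNc, Nd, hNd, hNe⟩ := exists_dec h h4
  have h5 := N_mem3 h hW hH hr hN hNc hNd hNe hα
  refine ⟨exp_mem hH.grp fun d => ?_, hrel_exp hW hN hz⟩
  have h6 : cxm N = cxm Nc + cxm Nd := by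
    rw [hNe]
    ext i j
    simp [cxm]
  unfold KK
  rw [h6]
  exact ((Pool.Agent.N208.CT.Wt_mem' h hW hH d).smul _).add
    (((Pool.Agent.N208.CT.stab_cen h hW hH hrig hNc d).add (stab_spR h hW h5 d)).smul _)


/-- The condition on the pairs, in terms of matrices. -/
theorem alpha_of3 {E : Matrix (Fin (2 * g)) (Fin (2 * g)) ℂ}
    {T : Submodule ℚ (Module.End ℚ A.H1)}
    (hα : ∀ p ∈ Submodule.span ℂ {p : Matrix (Fin (2 * g)) (Fin (2 * g)) ℂ ×
      Matrix (Fin n) (Fin n) ℂ | ∃ X ∈ T, ∃ M, Rel B X M ∧ p = (toC X, cq M)},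
      E * p.1 = 0 → (∀ u ∈ U, p.1 *ᵥ vec A u = 0) → p.2 * cxm N = cxm N * p.2) :
    ∀ p ∈ pC B T, matE (2 * g) E * p.1 = 0 → (∀ u ∈ U, Kil A p.1 u) →
      p.2 * cxm N = cxm N * p.2 := by
  intro p hp h0 hk
  have key : ∀ p ∈ pC B T, ∃ x, matE (2 * g) x = p.1 ∧ (x, p.2) ∈
      Submodule.span ℂ {p : Matrix (Fin (2 * g)) (Fin (2 * g)) ℂ × Matrix (Fin n) (Fin n) ℂ |
        ∃ X ∈ T, ∃ M, Rel B X M ∧ p = (toC X, cq M)} := by
    intro p hp
    induction hp using Submodule.span_induction with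
    | mem p hp =>
      obtain ⟨X, hX, M, hM, rfl⟩ := hp
      exact ⟨toC X, matE_toC X, Submodule.subset_span ⟨X, hX, M, hM, rfl⟩⟩
    | zero => exact ⟨0, map_zero _, Submodule.zero_mem _⟩
    | add p q _ _ hp hq =>
      obtain ⟨x, hx, hx'⟩ := hp
      obtain ⟨y, hy, hy'⟩ := hq
      exact ⟨x + y, by rw [map_add, hx, hy]; rfl, Submodule.add_mem _ hx' hy'⟩
    | smul c p _ hp =>
      obtain ⟨x, hx, hx'⟩ := hp
      exact ⟨c • x, by rw [map_smul, hx]; rfl, Submodule.smul_mem _ c hx'⟩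
  obtain ⟨x, hx, hx'⟩ := key p hp
  refine hα _ hx' ?_ fun u hu => ?_
  · rw [← hx, ← map_mul] at h0
    exact (matE (2 * g)).injective (h0.trans (map_zero _).symm)
  · have h1 := hk u hu
    unfold Kil at h1
    rw [← hx] at h1
    have h2 : (matE (2 * g)).symm (matE (2 * g) x) = x := AlgEquiv.symm_apply_apply _ _
    rw [h2] at h1
    exact h1

/-- **The main theorem** on unitary places and spin parts. -/
theorem jt {ι : Type} [Fintype ι] {z : ι → Module.End ℚ A.H1} {al : ι → ℝ}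
    {I : Type} [Fintype I] [DecidableEq I] {d r : I → ℕ}
    {E : ∀ σ, Fin (r σ) → Matrix (Fin (d σ)) (Fin (d σ)) ℂ}
    {P : ∀ σ, Matrix (Fin (2 * g)) (Fin (d σ)) ℂ} {Q : ∀ σ, Matrix (Fin (d σ)) (Fin (2 * g)) ℂ}
    (H : _root_.Run7.h2.OB.HGI A z al) (hP : Run7.h2.OR.Parts A E P Q)
    (hdim : ∀ i σ, finrank ℂ ((Run7.h2.OR.spM (der A.NA)).map
        (rho A (Pool.Agent.N208.BT.V0 A (z i) (al i)))) ≠
      finrank ℂ (Pool.Agent.Y102.SP.soE (N113.BT.enM (E σ)))) :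
    Jt A (matE (2 * g) (∑ σ, P σ * Q σ)) (_root_.Run7.h2.OB.UI A z al) where
  comm := hP.pin.comm
  stab := (_root_.Run7.h2.OB.rpartI H).stab
  der 𝔮 hq X hX := by
    classical
    obtain ⟨Y, hY, h1, h2⟩ := joint H hP hdim hq hX
    refine ⟨matE (2 * g) Y, ?_, ?_, ?_⟩
    · rw [← Run7.h2.OR.spM_map]
      exact ⟨Y, hY, rfl⟩
    · rw [← matE_toC, ← map_mul, h1, map_mul]
    · rintro u ⟨i, hu⟩
      unfold Kil
      have h3 : (matE (2 * g)).symm (X.baseChange ℂ - matE (2 * g) Y) = toC X - Y := by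
        rw [← matE_toC, ← map_sub]
        exact AlgEquiv.symm_apply_apply _ _
      rw [h3, Matrix.sub_mulVec, h2 i u hu, sub_self]

end Pool.Agent.Run7.h2.UO
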