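import Pool.Agent.Run7.h2.UO.U6
import Pool.Agent.Run7.h2.OB.SO

set_option autoImplicit false
set_option linter.unusedSectionVars false
set_option linter.unusedVariables false

/-!
# 1-motives: unitary places and spin parts

The proofs are those of `Pool.Agent.N208.OU`.
-/

open Module Function TensorProduct Matrix

noncomputable section

namespace Pool.Agent.Run7.h2.UO

section Gen

open Pool.Agent.Y102 Pool.Agent.W516.DR Pool.Agent.H204R3.GP Pool.Agent.W516.KC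
  Pool.Agent.H204R3.SP Pool.Agent.TH119.MX Pool.Agent.R917 Pool.Agent.N208.AM Pool.Agent.N113.BT

variable {g : ℕ} {A : AbVar g} {s n : ℕ} {r : Fin s → ℕ} {B : Fin n → Ten A r} {w : Fin s → ℤ}
  {P : Matrix (Fin n) (Fin n) ℂ} {N : Matrix (Fin n) (Fin n) ℝ}
  {e : Module.End ℂ (ℂ ⊗[ℚ] A.H1)} {U : Set (Fin g → ℂ)}

/-- The domain is given by the projector and the vectors. -/
def DomJ (e : Module.End ℂ (ℂ ⊗[ℚ] A.H1)) (U : Set (Fin g → ℂ)) (B : Fin n → Ten A r)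
    (N : Matrix (Fin n) (Fin n) ℝ) : Prop :=
  ∀ p ∈ pC B (der A.NA), e * p.1 = 0 → (∀ u ∈ U, Kil A p.1 u) → p.2 * cxm N = cxm N * p.2

theorem N_memF3 (h : Mot w B P) {𝔮 : Submodule ℚ (Module.End ℚ A.H1)} (hq : A.Full 𝔮)
    (hr : Jt A e U) (hN : RelR B AbVar.JJ N) {Nc Nd : Matrix (Fin n) (Fin n) ℝ}
    (hNc : Nc ∈ spR B (cenA A : Set (Module.End ℚ A.H1)))
    (hNd : Nd ∈ spR B (der A.NA : Set (Module.End ℚ A.H1))) (hNe : N = Nc + Nd)
    (hα : DomJ e U B N) :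
    Nd ∈ spR B (der 𝔮 : Set (Module.End ℚ A.H1)) := by
  have hdd : der 𝔮 ≤ der A.NA := by
    unfold der
    exact Submodule.span_mono fun _ ⟨X, hX, Y, hY, e⟩ => ⟨X, hq.le hX, Y, hq.le hY, e⟩
  have hdN : der 𝔮 ≤ A.NA := fun Z hZ => der_NA_le (hdd hZ)
  have hdb : ∀ X ∈ der 𝔮, ∀ Y ∈ der 𝔮, X * Y - Y * X ∈ der 𝔮 := fun X hX Y hY =>
    Submodule.subset_span ⟨X, hq.der_le hX, Y, hq.der_le hY, rfl⟩
  have hle : spR B (der A.NA : Set (Module.End ℚ A.H1)) ≤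
      spR B (A.NA : Set (Module.End ℚ A.H1)) := spR_mono der_NA_le
  have hnm : nJ B e U ≤ spR B (der A.NA : Set (Module.End ℚ A.H1)) := by
    rintro _ ⟨p, hp, -, rfl⟩
    exact (pC_re hp).1
  refine mem_of_sup (dat h hN hNc hNd hNe) (spR_mono hdd) (spR_br hdb) hnm ?_ ?_ ?_
  · rintro x hx z ⟨p, hp, h1, rfl⟩
    induction hx using Submodule.span_induction with
    | mem x hx =>
      obtain ⟨X, hX, M, hM, rfl⟩ := hx
      refine ⟨_, pC_br h hX hM hp, ⟨?_, fun u hu => ?_⟩, ?_⟩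
      · change e * (p.1 * X.baseChange ℂ - X.baseChange ℂ * p.1) = 0
        rw [mul_sub, ← mul_assoc, h1.1, zero_mul, ← mul_assoc, hr.comm _ (bc_mem (der_NA_le hX)),
          mul_assoc, h1.1, mul_zero, sub_zero]
      · exact Kil_br (h1.2 u hu) (h1.2 _ (hr.stab X (der_NA_le hX) u hu))
      · change _ = reM (cq M * p.2 - p.2 * cq M)
        rw [reM_sub, ← cxm_rq, reM_mul, reM_mul', RLie.br_apply]
    | zero => rw [LinearMap.map_zero₂]; exact Submodule.zero_mem _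
    | add a b _ _ ha hb => rw [LinearMap.map_add₂]; exact Submodule.add_mem _ ha hb
    | smul c a _ ha => rw [LinearMap.map_smul₂]; exact Submodule.smul_mem _ _ ha
  · intro z hz
    have h2 : RLie.br N z = 0 := by
      obtain ⟨p, hp, h1, rfl⟩ := hz
      have h3 := congrArg reM (hα p hp h1.1 h1.2)
      rw [reM_mul, reM_mul'] at h3
      rw [RLie.br_apply, h3, sub_self]
    rw [hNe, LinearMap.map_add₂, cenA_br h hNc (hle (hnm hz)), zero_add] at h2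
    exact h2
  · rw [spR, Submodule.span_le]
    rintro _ ⟨X, hX, M, hM, rfl⟩
    obtain ⟨y, hy, h1⟩ := hr.der _ hq X hX
    obtain ⟨y', hy'⟩ := exists_pC h hdN hy
    have h2 : ((X.baseChange ℂ : Module.End ℂ (ℂ ⊗[ℚ] A.H1)), cq M) ∈ pC B (der A.NA) :=
      Submodule.subset_span ⟨X, hX, M, hM, rfl⟩
    have h3 := Submodule.sub_mem _ h2 (pC_mono hdd hy')
    have h4 : rq M = reM y' + (rq M - reM y') := by abel
    change rq M ∈ _
    rw [h4]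
    refine Submodule.add_mem_sup (pC_re hy').1 ⟨_, h3, ⟨?_, h1.2⟩, ?_⟩
    · change e * (X.baseChange ℂ - y) = 0
      rw [mul_sub, h1.1, sub_self]
    · change _ = reM (cq M - y')
      rw [reM_sub, reM_cq]

/-- **The complex structure** for a full subalgebra which contains the centre. -/
theorem N_memC3 (h : Mot w B P) {𝔮 : Submodule ℚ (Module.End ℚ A.H1)} (hq : A.Full 𝔮)
    (hc : A.CN ≤ 𝔮) (hr : Jt A e U) (hN : RelR B AbVar.JJ N) (hα : DomJ e U B N) :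
    N ∈ spR B (𝔮 : Set (Module.End ℚ A.H1)) := by
  obtain ⟨N', hN', t, X, M, h1, h2⟩ := exists_J h
  have h3 : N = N' := hN.uniq h.li hN'
  subst h3
  have h4 : N ∈ spR B (A.NA : Set (Module.End ℚ A.H1)) := by
    rw [h2]
    exact Submodule.sum_mem _ fun k _ => Submodule.smul_mem _ _ (mem_spR (h1 k).1 (h1 k).2)
  obtain ⟨Nc, hNc, Nd, hNd, hNe⟩ := exists_dec h h4
  have h5 := N_memF3 h hq hr hN hNc hNd hNe hα
  rw [hNe]
  refine Submodule.add_mem _ (spR_mono ?_ hNc) (spR_mono hq.der_le h5)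
  rw [Pool.Agent.N208.CT.cenA_eq]
  exact hc

end Gen

section Fac

open Pool.Agent.Y102 Pool.Agent.W516.DR Pool.Agent.H204R3.GP Pool.Agent.W516.KC
  Pool.Agent.H204R3.SP Pool.Agent.TH119.MX Pool.Agent.R917 Pool.Agent.N208.AM Pool.Agent.N208.AD
  Pool.Agent.N208.BT Pool.Agent.N208.CT Pool.Agent.R917.DT Pool.Agent.N208.OU

variable {g g' : ℕ} {A : AbVar g} {C : AbVar g'} {f : A.H1 →ₗ[ℚ] C.H1} {p : C.H1 →ₗ[ℚ] A.H1}
  {𝔮 : Submodule ℚ (Module.End ℚ C.H1)} {e : Module.End ℂ (ℂ ⊗[ℚ] C.H1)}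

theorem ZZ_J3 (h : Fac A C f p) (hq : C.Full 𝔮) {U : Set (Fin g' → ℂ)} (hr : Jt C e U)
    (hα : ∀ N, RelR (hB p) (AbVar.JJ : (Fin g' → ℂ) →ₗ[ℝ] (Fin g' → ℂ)) N → DomJ e U (hB p) N)
    (r : ℝ →ₗ[ℚ] ℚ) : A.cmpE r AbVar.JJ ∈ ZZ f p 𝔮 := by
  obtain ⟨N, hN, t, X, M, h1, h2⟩ := exists_J (mot h)
  have h4 : N ∈ spR (hB p) (C.NA : Set (Module.End ℚ C.H1)) := by
    rw [h2]
    exact Submodule.sum_mem _ fun k _ => Submodule.smul_mem _ _ (mem_spR (h1 k).1 (h1 k).2)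
  obtain ⟨Nc, hNc, Nd, hNd, hNe⟩ := exists_dec (mot h) h4
  have h5 := N_memF3 (mot h) hq hr hN hNc hNd hNe (hα N hN)
  rw [cenA_eq] at hNc
  obtain ⟨Yc, hYc, hYc'⟩ := exists_NR h (𝔥 := ZZ f p 𝔮) (𝔮 := C.CN)
    (fun X hX => Submodule.mem_sup_left (Submodule.mem_map_of_mem hX)) hNc
  obtain ⟨Yd, hYd, hYd'⟩ := exists_NR h (𝔥 := ZZ f p 𝔮) (𝔮 := der 𝔮)
    (fun X hX => Submodule.mem_sup_right (Submodule.mem_map_of_mem hX)) h5
  have h6 := hYc'.add hYd'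
  rw [← hNe] at h6
  have h7 := cmpE_mem (Submodule.add_mem _ hYc hYd) r
  rwa [h6.uniq (NR_JJ h hN)] at h7

/-- **Factors of abelian varieties with a rigid centre.** -/
theorem detJ_of3 (h : Fac A C f p) (hrig : Rigid C) {U : Set (Fin g' → ℂ)} (hr : Jt C e U)
    (hα : ∀ N, RelR (hB p) (AbVar.JJ : (Fin g' → ℂ) →ₗ[ℝ] (Fin g' → ℂ)) N → DomJ e U (hB p) N) :
    DetJ A := by
  intro 𝔥 hle hbr h0 hRC r
  have hF := h.qq_full hbr h0
  have hC := CN_le hF (h.qq_RC hRC) hrig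
  obtain ⟨N, hN, -⟩ := exists_J (mot h)
  have h1 := N_memC3 (mot h) hF hC hr hN (hα N hN)
  obtain ⟨Y, hY, hYN⟩ := exists_NR h (𝔥 := 𝔥) (𝔮 := Fac.qq f p 𝔥) (fun X hX => hX.2) h1
  have h2 := cmpE_mem hY r
  rwa [hYN.uniq (NR_JJ h hN)] at h2

theorem NR_T {Y : Module.End ℝ (Fin g → ℂ)} {N : Matrix (Fin (2 * g)) (Fin (2 * g)) ℝ}
    (h : NR A Y N) : cxm N = (cR A Y)ᵀ := by
  ext b a
  rw [Matrix.transpose_apply, cR_apply, h (A.lam b) a]
  change ((N b a : ℝ) : ℂ) = _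
  rw [Finset.sum_eq_single b]
  · rw [A.lam.repr_self, Finsupp.single_eq_same, mul_one]
  · intro c _ hc
    rw [A.lam.repr_self, Finsupp.single_eq_of_ne hc, mul_zero]
  · intro h'
    exact absurd (Finset.mem_univ _) h'

/-- The condition on the domain, in terms of matrices. -/
theorem domJ_of (h : Fac A C f p) {E : Matrix (Fin (2 * g')) (Fin (2 * g')) ℂ}
    {U : Set (Fin g' → ℂ)}
    (hD : ∀ (m : ℕ) (c : Fin m → ℂ) (X : Fin m → Module.End ℚ C.H1), (∀ j, X j ∈ der C.NA) →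
      E * ∑ j, c j • Y102.toC (X j) = 0 →
      (∀ u ∈ U, (∑ j, c j • Y102.toC (X j)) *ᵥ vec C u = 0) →
      (∑ j, c j • Y102.toC (p.comp ((X j).comp f))) * cR A AbVar.JJ =
        cR A AbVar.JJ * ∑ j, c j • Y102.toC (p.comp ((X j).comp f)))
    {N : Matrix (Fin (2 * g)) (Fin (2 * g)) ℝ} (hN : RelR (hB p) AbVar.JJ N) :
    DomJ (matE (2 * g') E) U (hB p) N := by
  intro q hq h0 hk
  obtain ⟨m, c, X, hX⟩ := Submodule.mem_span_set'.1 hq
  choose Y hY M hM hYe using fun j => (X j).2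
  have e1 : q.1 = matE (2 * g') (∑ j, c j • Y102.toC (Y j)) := by
    rw [← hX, Prod.fst_sum, map_sum]
    refine Finset.sum_congr rfl fun j _ => ?_
    rw [Prod.smul_fst, hYe j, map_smul, matE_toC]
  have e2 : q.2 = (∑ j, c j • Y102.toC (p.comp ((Y j).comp f)))ᵀ := by
    rw [← hX, Prod.snd_sum, Matrix.transpose_sum]
    refine Finset.sum_congr rfl fun j _ => ?_
    rw [Prod.smul_snd, hYe j]
    change c j • cq (M j) = _
    have k1 := NR_T (NR_rs h (hM j))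
    rw [cR_ext, N113.BT.cxm_rq] at k1
    rw [k1, Matrix.transpose_smul]
    rfl
  have e3 : cxm N = (cR A AbVar.JJ)ᵀ := NR_T (NR_JJ h hN)
  have h1 := hD m c Y hY (by
    apply (matE (2 * g')).injective
    rw [map_mul, ← e1, h0, map_zero]) (fun u hu => by
    have h2 := hk u hu
    unfold Kil at h2
    rw [e1] at h2
    have h3 : (matE (2 * g')).symm (matE (2 * g') (∑ j, c j • Y102.toC (Y j))) =
        ∑ j, c j • Y102.toC (Y j) := AlgEquiv.symm_apply_apply _ _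
    rw [h3] at h2
    exact h2)
  rw [e2, e3, ← Matrix.transpose_mul, ← Matrix.transpose_mul, h1]

end Fac

open Pool.Agent.Y102 Pool.Agent.R917.OM Pool.Agent.R917.BX
  Pool.Agent.W516.DR Pool.Agent.H204R3.GP Pool.Agent.N208.UR Pool.Agent.N208.OneM

variable {g n s : ℕ} {A : AbVarG g} {u : Fin n → Fin g → ℂ} {v : Fin s → Fin g → ℂ}
  {ℓ : Fin n → Fin s → ℂ} {G : Subgroup (GL (Betti g n s) ℂ)}
  {g' : ℕ} {C : AbVar g'} {f : A.toAbVar.H1 →ₗ[ℚ] C.H1} {p : C.H1 →ₗ[ℚ] A.toAbVar.H1}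

theorem main_three3 {e : Module.End ℂ (ℂ ⊗[ℚ] C.H1)} {U : Set (Fin g' → ℂ)} (hM : IsOneMotive A u v ℓ) (hG : IsAlgebraicSubgroup G)
    (hP : ContainsPeriods A u v ℓ G) (hF : IsFactor A.toAbVar C f p) (hr : Jt C e U)
    (hα : ∀ N, N208.AM.RelR (N208.OU.hB p) (AbVar.JJ : (Fin g' → ℂ) →ₗ[ℝ] (Fin g' → ℂ)) N →
      DomJ e U (N208.OU.hB p) N) (hR : RigidCentre C) : mumfordTate A u v ℓ ≤ G := by
  obtain ⟨T, hT, q, hq, hqT⟩ := hP
  rw [periodMatrix_eq] at hqT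
  have hpt := ptM_of hG hT hq hqT
  obtain ⟨K₁, hK₁, hrat⟩ := exists_rat_mult A (pt (dat A u v ℓ)) (by
    rintro (i | l)
    · exact Or.inl (hM.point i)
    · exact Or.inl (hM.dual l))
  have hdet := detJ_of3 (hfac hF) (hR.toRigid C) hr hα
  obtain ⟨h1, h2⟩ := Pool.Agent.R917.DT.hodge_stab6 hpt
    ⟨hM.point, hM.neg, hM.sub, hM.log⟩ hrat hdet
  refine sInf_le ⟨hG, fun z hz => ?_⟩
  obtain ⟨x, hx, hxe⟩ := Pool.Agent.R917.exp_mem hpt.grp fun k =>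
    ((h2 k).smul ((Complex.log z).re : ℂ)).add ((h1 k).smul ((Complex.log z).im : ℂ))
  exact ⟨x, hx, deligne_exp A hz hxe⟩

theorem main_two3 {e : Module.End ℂ (ℂ ⊗[ℚ] C.H1)} {U : Set (Fin g' → ℂ)} (hM : IsOneMotive A u v ℓ) (hG : IsAlgebraicSubgroup G)
    (hP : ContainsPeriods A u v ℓ G) (hF : IsFactor A.toAbVar C f p) (hr : Jt C e U)
    (hα : ∀ N, N208.AM.RelR (N208.OU.hB p) (AbVar.JJ : (Fin g' → ℂ) →ₗ[ℝ] (Fin g' → ℂ)) N →
      DomJ e U (N208.OU.hB p) N) {Z : Matrix (Betti g n s) (Betti g n s) ℚ}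
    (hZ : Z ∈ derived (mtLie A u v ℓ)) (t : ℂ) :
    IsIn G (NormedSpace.exp (t • cplx Z)) := by
  obtain ⟨T, hT, q, hq, hqT⟩ := hP
  rw [periodMatrix_eq] at hqT
  have hpt := ptM_of hG hT hq hqT
  obtain ⟨K₁, hK₁, hrat⟩ := exists_rat_mult A (pt (dat A u v ℓ)) (by
    rintro (i | l)
    · exact Or.inl (hM.point i)
    · exact Or.inl (hM.dual l))
  have hLg := gg_Lg hpt
  have hfc := hfac hF
  obtain ⟨𝔮, h𝔮⟩ : ∃ 𝔮, 𝔮 = Pool.Agent.R917.DT.Fac.qq f p (aa (gg A.toAbVar n s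
    {M | ∃ x ∈ G, (x : Matrix (Betti g n s) (Betti g n s) ℂ) = M})) := ⟨_, rfl⟩
  have hfull : C.Full 𝔮 := by
    rw [h𝔮]
    exact hfc.qq_full (fun X hX Y hY => hLg.full.br X hX Y hY) (fun D lam => ⟨_, hLg.per D lam, rfl⟩)
  have hJ := ZZ_J3 hfc hfull hr hα
  have hbr : ∀ x ∈ N208.OU.ZZ f p 𝔮, ∀ y ∈ N208.OU.ZZ f p 𝔮,
      x * y - y * x ∈ (Pool.Agent.Y102.der 𝔮).map (Pool.Agent.R917.DT.rs f p) :=
    fun x hx y hy => N208.OU.ZZ_br hfc hfull hx hy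
  have hle : (Pool.Agent.Y102.der 𝔮).map (Pool.Agent.R917.DT.rs f p) ≤ N208.OU.ZZ f p 𝔮 := le_sup_right
  have hle' : (Pool.Agent.Y102.der 𝔮).map (Pool.Agent.R917.DT.rs f p) ≤ aa (gg A.toAbVar n s
      {M | ∃ x ∈ G, (x : Matrix (Betti g n s) (Betti g n s) ℂ) = M}) := by
    rintro _ ⟨X, hX, rfl⟩
    have h1 := hfull.der_le hX
    rw [h𝔮] at h1
    exact h1.2
  have hNA := N208.OU.ZZ_NA hfc hfull
  -- the Lie algebra of the Mumford-Tate group is in the normalizer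
  have h1 : mtLie A u v ℓ ≤ N208.OU.LL A n s
      {M | ∃ x ∈ G, (x : Matrix (Betti g n s) (Betti g n s) ℂ) = M} (N208.OU.ZZ f p 𝔮) := by
    refine sInf_le ⟨fun X hX Y hY => N208.OU.LL_brr hNA hX hY fun x hx y hy =>
      hle (hbr x hx y hy), fun w => ⟨_, ?_, lie_deligne A w⟩⟩
    have hc := fun lam => N208.OU.exists_LL hpt ⟨hM.point, hM.neg, hM.sub, hM.log⟩ hrat hJ lam
    refine Submodule.add_mem _ (Submodule.smul_mem _ _ ?_) (Submodule.smul_mem _ _ ?_)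
    · refine N208.OU.mem_span_of_comp fun lam => ?_
      rw [N208.OU.comp_tW]
      exact (hc lam).2
    · refine N208.OU.mem_span_of_comp fun lam => ?_
      rw [N208.OU.comp_tJ]
      exact (hc lam).1
  obtain ⟨W, hW, hW1, hW2⟩ := Pool.Agent.R917.DT.weight hpt
  have h2 : Z ∈ N208.OU.gQ A n s
      {M | ∃ x ∈ G, (x : Matrix (Betti g n s) (Betti g n s) ℂ) = M} := by
    unfold derived at hZ
    refine (Submodule.span_le.2 ?_) hZ
    rintro _ ⟨X, hX, Y, hY, rfl⟩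
    exact N208.OU.LL_gQ hLg hW hW1 hW2 hle' (N208.OU.LL_brr hNA (h1 hX) (h1 hY) hbr)
  obtain ⟨L, hL, rfl⟩ := h2
  exact Pool.Agent.R917.exp_mem hpt.grp fun k => (hL.2 k).smul t

end Pool.Agent.Run7.h2.UO
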